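import Pool.Agent.Helper3.AP.BtOr

/-!
# A' B-terms, part 3: the sum over the moduli
-/

set_option autoImplicit false

namespace Pool.Agent.Helper3.AP

open Finset

lemma le_tot_mul (n : ℕ) : n ≤ n.divisors.card * n.totient := by
  rcases Nat.eq_zero_or_pos n with h | h
  · subst h
    simp
  · calc n = ∑ d ∈ n.divisors, d.totient := (Nat.sum_totient n).symm
      _ ≤ ∑ d ∈ n.divisors, n.totient := sum_le_sum fun d hd =>
          Nat.le_of_dvd (Nat.totient_pos.2 h) (Nat.totient_dvd_of_dvd (Nat.dvd_of_mem_divisors hd))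
      _ = n.divisors.card * n.totient := by rw [sum_const, smul_eq_mul]

lemma inv_tot_le {n : ℕ} (hn : 1 ≤ n) : (1 : ℝ) / n.totient ≤ ∑ _d ∈ n.divisors, (1 : ℝ) / n := by
  have ht : (0 : ℝ) < n.totient := by exact_mod_cast Nat.totient_pos.2 hn
  have hn0 : (0 : ℝ) < n := by exact_mod_cast hn
  rw [sum_const, nsmul_eq_mul, mul_one_div, div_le_div_iff₀ ht hn0, one_mul]
  exact_mod_cast le_tot_mul n

lemma sum_inv_tot {X : ℕ} (hX : 1 ≤ X) : ∑ h ∈ Icc 1 X, (1 : ℝ) / h.totient ≤ (1 + Real.log X) ^ 2 := by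
  have hh : ∑ a ∈ Icc 1 X, (1 : ℝ) / a ≤ 1 + Real.log X := by
    have h1 := harmonic_le_one_add_log X
    have h2 : ((harmonic X : ℚ) : ℝ) = ∑ a ∈ Icc 1 X, (1 : ℝ) / a := by
      rw [harmonic_eq_sum_Icc]
      push_cast
      simp only [one_div]
    rw [h2] at h1
    exact h1
  calc ∑ h ∈ Icc 1 X, (1 : ℝ) / h.totient ≤ ∑ h ∈ Icc 1 X, ∑ d ∈ h.divisors, (1 : ℝ) / h :=
        sum_le_sum fun h hh => inv_tot_le (mem_Icc.1 hh).1
    _ = ∑ x ∈ (Icc 1 X).sigma fun h => h.divisors, (fun y : ℕ × ℕ => (1 : ℝ) / y.1 * (1 / y.2)) (x.2, x.1 / x.2) := by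
        rw [sum_sigma]
        refine sum_congr rfl fun h hh => sum_congr rfl fun d hd => ?_
        have h1 : d ∣ h := Nat.dvd_of_mem_divisors hd
        have hd0 : 0 < d := Nat.pos_of_mem_divisors hd
        show (1 : ℝ) / h = 1 / d * (1 / ((h / d : ℕ) : ℝ))
        rw [div_mul_div_comm, one_mul, ← Nat.cast_mul, Nat.mul_div_cancel' h1]
    _ = ∑ y ∈ ((Icc 1 X).sigma fun h => h.divisors).image (fun x => (x.2, x.1 / x.2)), (1 : ℝ) / y.1 * (1 / y.2) := by
        rw [sum_image]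
        rintro ⟨h, d⟩ hx ⟨h', d'⟩ hx' he
        rw [mem_coe, mem_sigma] at hx hx'
        simp only [Prod.mk.injEq] at he
        obtain ⟨e1, e2⟩ := he
        subst e1
        have h1 : d ∣ h := Nat.dvd_of_mem_divisors hx.2
        have h2 : d ∣ h' := Nat.dvd_of_mem_divisors hx'.2
        have : h = h' := by
          rw [← Nat.mul_div_cancel' h1, ← Nat.mul_div_cancel' h2, e2]
        subst this
        rfl
    _ ≤ ∑ y ∈ (Icc 1 X) ×ˢ (Icc 1 X), (1 : ℝ) / y.1 * (1 / y.2) := by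
        refine sum_le_sum_of_subset_of_nonneg ?_ fun _ _ _ => by positivity
        intro y hy
        obtain ⟨⟨h, d⟩, hx, rfl⟩ := mem_image.1 hy
        rw [mem_sigma, mem_Icc] at hx
        have h1 : d ∣ h := Nat.dvd_of_mem_divisors hx.2
        have hd0 : 0 < d := Nat.pos_of_mem_divisors hx.2
        rw [mem_product, mem_Icc, mem_Icc]
        have h2 := Nat.le_of_dvd hx.1.1 h1
        exact ⟨⟨hd0, h2.trans hx.1.2⟩, Nat.div_pos h2 hd0, (Nat.div_le_self _ _).trans hx.1.2⟩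
    _ = (∑ a ∈ Icc 1 X, (1 : ℝ) / a) * ∑ b ∈ Icc 1 X, (1 : ℝ) / b := by
        rw [sum_mul_sum, sum_product]
    _ ≤ (1 + Real.log X) ^ 2 := by
        have h0 : 0 ≤ ∑ a ∈ Icc 1 X, (1 : ℝ) / a := sum_nonneg fun _ _ => by positivity
        nlinarith

/-- the nonprincipal part -/
theorem big_part {d Z X M0 M L0 L : ℕ} (hd : d ≠ 0) (hZ1 : 1 ≤ Z) {k : ℤ} (S : Finset ℕ)
    (hS : ∀ P ∈ S, P ≠ 0 ∧ d.Coprime P ∧ d * P ≤ X ∧ IsCoprime k ((d * P : ℕ) : ℤ) ∧ ∀ p : ℕ, p.Prime → p ∣ P → Z ≤ p)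
    {a b : ℕ → ℂ} (ha : ∀ n, ‖a n‖ ≤ 1) (hb : ∀ n, ‖b n‖ ≤ 1) :
    ∑ P ∈ S, ‖∑ m ∈ Ioc M0 (M0 + M), ∑ l ∈ Ioc L0 (L0 + L),
        a m * b l * (if (k : ZMod (d * P)) = (m : ZMod (d * P)) * l then 1 else 0) -
      (P.totient : ℂ)⁻¹ * ∑ m ∈ Ioc M0 (M0 + M), ∑ l ∈ Ioc L0 (L0 + L),
        cp P a m * cp P b l * (if (k : ZMod d) = (m : ZMod d) * l then 1 else 0)‖ ≤
      32 * (1 + Real.log X) ^ 3 * (Real.sqrt M * Real.sqrt L) *
        (X + Real.sqrt M + Real.sqrt L + Real.sqrt M * Real.sqrt L / Z) := by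
  set s := Ioc M0 (M0 + M) with hs
  set t := Ioc L0 (L0 + L) with ht
  set v : ℕ × ℕ → ℝ := fun y => 1 / (y.1.totient : ℝ) * (1 / (y.2.totient : ℝ) * G (cp y.1 a) (cp y.1 b) s t y.2) with hv
  have hv0 : ∀ y, 0 ≤ v y := fun y => mul_nonneg (by positivity) (mul_nonneg (by positivity) (G_nonneg _ _ _ _ _))
  have h1 : ∑ P ∈ S, ‖∑ m ∈ s, ∑ l ∈ t, a m * b l * (if (k : ZMod (d * P)) = (m : ZMod (d * P)) * l then 1 else 0) -
      (P.totient : ℂ)⁻¹ * ∑ m ∈ s, ∑ l ∈ t, cp P a m * cp P b l * (if (k : ZMod d) = (m : ZMod d) * l then 1 else 0)‖ ≤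
      ∑ x ∈ S.sigma fun P => (d * P).divisors.filter (fun f => Z ≤ f), v (d * x.1 / x.2, x.2) := by
    rw [sum_sigma]
    refine sum_le_sum fun P hP => ?_
    obtain ⟨hP0, hc, hle, hk, hZ⟩ := hS P hP
    refine (one_mod hd hP0 hc hZ hk s t a b).trans ?_
    rw [mul_sum]
    refine sum_le_sum fun f hf => ?_
    rw [mem_filter] at hf
    have hfd : f ∣ d * P := Nat.dvd_of_mem_divisors hf.1
    have hdP : 0 < d * P := Nat.pos_of_ne_zero (mul_ne_zero hd hP0)
    have hf0 : 0 < f := Nat.pos_of_dvd_of_pos hfd hdP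
    have hh0 : 0 < d * P / f := Nat.div_pos (Nat.le_of_dvd hdP hfd) hf0
    have h2 : ((d * P / f).totient : ℝ) * (f.totient : ℝ) ≤ ((d * P).totient : ℝ) := by
      have h3 := Nat.totient_super_multiplicative (d * P / f) f
      rw [Nat.div_mul_cancel hfd] at h3
      exact_mod_cast h3
    have t1 : (0 : ℝ) < (d * P / f).totient := by exact_mod_cast Nat.totient_pos.2 hh0
    have t2 : (0 : ℝ) < f.totient := by exact_mod_cast Nat.totient_pos.2 hf0
    simp only [hv]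
    rw [← mul_assoc]
    refine mul_le_mul_of_nonneg_right ?_ (G_nonneg _ _ _ _ _)
    rw [div_mul_div_comm, one_mul]
    exact one_div_le_one_div_of_le (mul_pos t1 t2) h2
  have h2 : ∑ x ∈ S.sigma fun P => (d * P).divisors.filter (fun f => Z ≤ f), v (d * x.1 / x.2, x.2) ≤
      ∑ y ∈ (Icc 1 X) ×ˢ (Icc Z X), v y := by
    have e1 : ∑ x ∈ S.sigma fun P => (d * P).divisors.filter (fun f => Z ≤ f), v (d * x.1 / x.2, x.2) =
        ∑ y ∈ (S.sigma fun P => (d * P).divisors.filter (fun f => Z ≤ f)).image (fun x => (d * x.1 / x.2, x.2)), v y := by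
      rw [sum_image]
      rintro ⟨P, f⟩ hx ⟨P', f'⟩ hx' he
      rw [mem_coe, mem_sigma, mem_filter] at hx hx'
      simp only [Prod.mk.injEq] at he
      obtain ⟨e1, e2⟩ := he
      subst e2
      have h1 : f ∣ d * P := Nat.dvd_of_mem_divisors hx.2.1
      have h2 : f ∣ d * P' := Nat.dvd_of_mem_divisors hx'.2.1
      have h3 : d * P = d * P' := by
        rw [← Nat.div_mul_cancel h1, ← Nat.div_mul_cancel h2, e1]
      have : P = P' := Nat.eq_of_mul_eq_mul_left (Nat.pos_of_ne_zero hd) h3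
      subst this
      rfl
    rw [e1]
    refine sum_le_sum_of_subset_of_nonneg ?_ fun y _ _ => hv0 y
    intro y hy
    obtain ⟨⟨P, f⟩, hx, rfl⟩ := mem_image.1 hy
    rw [mem_sigma, mem_filter] at hx
    obtain ⟨hP0, hc, hle, hk, hZ⟩ := hS P hx.1
    have hfd : f ∣ d * P := Nat.dvd_of_mem_divisors hx.2.1
    have hdP : 0 < d * P := Nat.pos_of_ne_zero (mul_ne_zero hd hP0)
    have hf0 : 0 < f := Nat.pos_of_dvd_of_pos hfd hdP
    rw [mem_product, mem_Icc, mem_Icc]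
    exact ⟨⟨Nat.div_pos (Nat.le_of_dvd hdP hfd) hf0, (Nat.div_le_self _ _).trans hle⟩, hx.2.2,
      (Nat.le_of_dvd hdP hfd).trans hle⟩
  refine h1.trans (h2.trans ?_)
  rw [sum_product]
  rcases Nat.eq_zero_or_pos X with hX | hX
  · subst hX
    rw [Icc_eq_empty (by norm_num : ¬ (1 : ℕ) ≤ 0), sum_empty]
    simp only [Nat.cast_zero, Real.log_zero]
    positivity
  have hlog : 0 ≤ Real.log X := Real.log_nonneg (by exact_mod_cast hX)
  set R := 32 * (1 + Real.log X) * (Real.sqrt M * Real.sqrt L) *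
        (X + Real.sqrt M + Real.sqrt L + Real.sqrt M * Real.sqrt L / Z) with hR
  have hR0 : 0 ≤ R := by positivity
  have h3 : ∀ h ∈ Icc 1 X, ∑ f ∈ Icc Z X, v (h, f) ≤ 1 / (h.totient : ℝ) * R := by
    intro h _
    simp only [hv]
    rw [← mul_sum]
    refine mul_le_mul_of_nonneg_left ?_ (by positivity)
    exact bilin_tail Z X M0 M L0 L hZ1 (cp_norm h ha) (cp_norm h hb)
  refine (sum_le_sum h3).trans ?_
  rw [← sum_mul]
  refine (mul_le_mul_of_nonneg_right (sum_inv_tot hX) hR0).trans (le_of_eq ?_)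
  rw [hR]
  ring

lemma card_pf_le {P : ℕ} (hP : 1 ≤ P) : (P.primeFactors.card : ℝ) ≤ 2 * Real.log P := by
  have h1 : 2 ^ P.primeFactors.card ≤ P := by
    refine le_trans ?_ (Nat.le_of_dvd hP (Nat.prod_primeFactors_dvd P))
    rw [← prod_const]
    exact prod_le_prod (fun _ _ => by norm_num) fun p hp => (Nat.prime_of_mem_primeFactors hp).two_le
  have h2 : (2 : ℝ) ^ P.primeFactors.card ≤ P := by exact_mod_cast h1
  have h3 : (P.primeFactors.card : ℝ) * Real.log 2 ≤ Real.log P := by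
    rw [← Real.log_pow]
    exact Real.log_le_log (by positivity) h2
  have h4 := Real.log_two_gt_d9
  have h5 : (0 : ℝ) ≤ P.primeFactors.card := Nat.cast_nonneg _
  nlinarith

lemma count_mul {p M0 M : ℕ} (hp : 0 < p) : ((Ioc M0 (M0 + M)).filter (fun n => p ∣ n)).card ≤ M / p + 1 := by
  have h1 := Nat.Ioc_filter_dvd_card_eq_div (M0 + M) p
  have h2 := Nat.Ioc_filter_dvd_card_eq_div M0 p
  have h3 : Ioc 0 (M0 + M) = Ioc 0 M0 ∪ Ioc M0 (M0 + M) := by
    ext n
    simp only [mem_union, mem_Ioc]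
    omega
  have h4 : Disjoint ((Ioc 0 M0).filter (fun n => p ∣ n)) ((Ioc M0 (M0 + M)).filter (fun n => p ∣ n)) := by
    rw [disjoint_left]
    intro n h h'
    rw [mem_filter, mem_Ioc] at h h'
    omega
  rw [h3, filter_union, card_union_of_disjoint h4, h2] at h1
  have h5 : (M0 + M) / p ≤ M0 / p + M / p + 1 := by
    rw [Nat.add_div hp]
    split_ifs <;> omega
  omega

/-- the number of integers not coprime to `P` -/
lemma count_nc {P Z M0 M : ℕ} (hZ1 : 1 ≤ Z) (hP : P ≠ 0) (hZ : ∀ p : ℕ, p.Prime → p ∣ P → Z ≤ p) :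
    (((Ioc M0 (M0 + M)).filter (fun n => ¬ n.Coprime P)).card : ℝ) ≤ P.primeFactors.card * (M / Z + 1) := by
  have h1 : (Ioc M0 (M0 + M)).filter (fun n => ¬ n.Coprime P) ⊆
      P.primeFactors.biUnion fun p => (Ioc M0 (M0 + M)).filter (fun n => p ∣ n) := by
    intro n hn
    rw [mem_filter] at hn
    obtain ⟨p, hp, hpn, hpP⟩ := Nat.Prime.not_coprime_iff_dvd.1 hn.2
    rw [mem_biUnion]
    exact ⟨p, Nat.mem_primeFactors.2 ⟨hp, hpP, hP⟩, mem_filter.2 ⟨hn.1, hpn⟩⟩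
  have hZ0 : (0 : ℝ) < Z := by exact_mod_cast hZ1
  calc (((Ioc M0 (M0 + M)).filter (fun n => ¬ n.Coprime P)).card : ℝ)
      ≤ ((P.primeFactors.biUnion fun p => (Ioc M0 (M0 + M)).filter (fun n => p ∣ n)).card : ℝ) := by
        exact_mod_cast card_le_card h1
    _ ≤ ∑ p ∈ P.primeFactors, (((Ioc M0 (M0 + M)).filter (fun n => p ∣ n)).card : ℝ) := by
        exact_mod_cast card_biUnion_le
    _ ≤ ∑ p ∈ P.primeFactors, ((M : ℝ) / Z + 1) := by
        refine sum_le_sum fun p hp => ?_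
        have hp' := Nat.prime_of_mem_primeFactors hp
        have h2 : (((Ioc M0 (M0 + M)).filter (fun n => p ∣ n)).card : ℝ) ≤ ((M / p : ℕ) : ℝ) + 1 := by
          exact_mod_cast count_mul hp'.pos
        have h3 : ((M / p : ℕ) : ℝ) ≤ (M : ℝ) / p := Nat.cast_div_le
        have h4 : (Z : ℝ) ≤ p := by exact_mod_cast hZ p hp' (Nat.dvd_of_mem_primeFactors hp)
        have h5 : (M : ℝ) / p ≤ M / Z := div_le_div_of_nonneg_left (Nat.cast_nonneg _) hZ0 h4
        linarith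
    _ = P.primeFactors.card * (M / Z + 1) := by rw [sum_const, nsmul_eq_mul]

lemma tot_diff {P Z : ℕ} (hZ1 : 1 ≤ Z) (hP : P ≠ 0) (hZ : ∀ p : ℕ, p.Prime → p ∣ P → Z ≤ p) :
    1 / (P.totient : ℝ) - 1 / P ≤ 1 / (P.totient : ℝ) * (P.primeFactors.card / Z) := by
  have hZ0 : (0 : ℝ) < Z := by exact_mod_cast hZ1
  have hP0 : (0 : ℝ) < P := by exact_mod_cast Nat.pos_of_ne_zero hP
  have ht : (0 : ℝ) < P.totient := by exact_mod_cast Nat.totient_pos.2 (Nat.pos_of_ne_zero hP)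
  have h1 : P ≤ P.totient + ∑ p ∈ P.primeFactors, P / p := by
    have e1 := Nat.filter_coprime_Ico_eq_totient P 1
    have e2 := card_filter_add_card_filter_not (s := Ico 1 (1 + P)) (fun x => P.Coprime x)
    rw [e1, Nat.card_Ico] at e2
    have e3 : ((Ico 1 (1 + P)).filter (fun x => ¬ P.Coprime x)).card ≤ ∑ p ∈ P.primeFactors, P / p := by
      have h2 : (Ico 1 (1 + P)).filter (fun x => ¬ P.Coprime x) ⊆
          P.primeFactors.biUnion fun p => (Ioc 0 P).filter (fun n => p ∣ n) := by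
        intro n hn
        rw [mem_filter, mem_Ico] at hn
        obtain ⟨p, hp, hpP, hpn⟩ := Nat.Prime.not_coprime_iff_dvd.1 hn.2
        rw [mem_biUnion]
        exact ⟨p, Nat.mem_primeFactors.2 ⟨hp, hpP, hP⟩, mem_filter.2 ⟨mem_Ioc.2 (by omega), hpn⟩⟩
      refine (card_le_card h2).trans (card_biUnion_le.trans (le_of_eq ?_))
      exact sum_congr rfl fun p _ => Nat.Ioc_filter_dvd_card_eq_div P p
    omega
  have h2 : (P : ℝ) ≤ P.totient + P.primeFactors.card * (P / Z) := by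
    have h3 : (P : ℝ) ≤ P.totient + ∑ p ∈ P.primeFactors, ((P / p : ℕ) : ℝ) := by exact_mod_cast h1
    refine h3.trans (by
      refine add_le_add le_rfl ?_
      rw [← nsmul_eq_mul, ← sum_const]
      refine sum_le_sum fun p hp => ?_
      have hp' := Nat.prime_of_mem_primeFactors hp
      have h4 : (Z : ℝ) ≤ p := by exact_mod_cast hZ p hp' (Nat.dvd_of_mem_primeFactors hp)
      exact Nat.cast_div_le.trans (div_le_div_of_nonneg_left (Nat.cast_nonneg _) hZ0 h4))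
  have h3 : 1 / (P.totient : ℝ) - 1 / P = 1 / (P.totient : ℝ) * ((P - P.totient) / P) := by
    field_simp
  rw [h3]
  refine mul_le_mul_of_nonneg_left ?_ (by positivity)
  rw [div_le_iff₀ hP0]
  have h4 : (P.primeFactors.card : ℝ) / Z * P = P.primeFactors.card * (P / Z) := by ring
  rw [h4]
  linarith

/-- the change of the principal part, one modulus -/
lemma err_one {d P Z M0 M L0 L : ℕ} (hZ1 : 1 ≤ Z) (hP : P ≠ 0) (hZ : ∀ p : ℕ, p.Prime → p ∣ P → Z ≤ p) {k : ℤ}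
    {a b : ℕ → ℂ} (ha : ∀ n, ‖a n‖ ≤ 1) (hb : ∀ n, ‖b n‖ ≤ 1) :
    ‖(P.totient : ℂ)⁻¹ * ∑ m ∈ Ioc M0 (M0 + M), ∑ l ∈ Ioc L0 (L0 + L),
        cp P a m * cp P b l * (if (k : ZMod d) = (m : ZMod d) * l then 1 else 0) -
      (P : ℂ)⁻¹ * ∑ m ∈ Ioc M0 (M0 + M), ∑ l ∈ Ioc L0 (L0 + L),
        a m * b l * (if (k : ZMod d) = (m : ZMod d) * l then 1 else 0)‖ ≤
      1 / (P.totient : ℝ) * (P.primeFactors.card * (3 * (M * L / Z) + M + L)) := by
  set s := Ioc M0 (M0 + M) with hs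
  set t := Ioc L0 (L0 + L) with ht
  set J : ℕ → ℕ → ℂ := fun m l => if (k : ZMod d) = (m : ZMod d) * l then 1 else 0 with hJ
  have hJ1 : ∀ m l, ‖J m l‖ ≤ 1 := by
    intro m l
    simp only [hJ]
    split_ifs <;> simp
  have hZ0 : (0 : ℝ) < Z := by exact_mod_cast hZ1
  have hM0 : (0 : ℝ) ≤ M := Nat.cast_nonneg _
  have hL0 : (0 : ℝ) ≤ L := Nat.cast_nonneg _
  have htp : (0 : ℝ) < P.totient := by exact_mod_cast Nat.totient_pos.2 (Nat.pos_of_ne_zero hP)
  have hP0 : (0 : ℝ) < P := by exact_mod_cast Nat.pos_of_ne_zero hP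
  set S1 := ∑ m ∈ s, ∑ l ∈ t, cp P a m * cp P b l * J m l with hS1
  set S2 := ∑ m ∈ s, ∑ l ∈ t, a m * b l * J m l with hS2
  have e1 : (P.totient : ℂ)⁻¹ * S1 - (P : ℂ)⁻¹ * S2 =
      (P.totient : ℂ)⁻¹ * (S1 - S2) + ((P.totient : ℂ)⁻¹ - (P : ℂ)⁻¹) * S2 := by ring
  have h2 : ‖S2‖ ≤ M * L := by
    calc ‖S2‖ ≤ ∑ m ∈ s, ∑ l ∈ t, (1 : ℝ) := by
          refine (norm_sum_le _ _).trans (sum_le_sum fun m _ => (norm_sum_le _ _).trans (sum_le_sum fun l _ => ?_))
          rw [norm_mul, norm_mul]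
          have := mul_le_mul (mul_le_mul (ha m) (hb l) (norm_nonneg _) zero_le_one) (hJ1 m l) (norm_nonneg _) (by norm_num)
          linarith
      _ = M * L := by simp [hs, ht]
  have h1 : ‖S1 - S2‖ ≤ P.primeFactors.card * (M / Z + 1) * L + M * (P.primeFactors.card * (L / Z + 1)) := by
    have e2 : S1 - S2 = ∑ m ∈ s, ∑ l ∈ t, (cp P a m * cp P b l - a m * b l) * J m l := by
      rw [hS1, hS2, ← sum_sub_distrib]
      refine sum_congr rfl fun m _ => ?_
      rw [← sum_sub_distrib]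
      refine sum_congr rfl fun l _ => ?_
      ring
    rw [e2]
    have h3 : ∀ m l, ‖(cp P a m * cp P b l - a m * b l) * J m l‖ ≤
        (if ¬ m.Coprime P then (1 : ℝ) else 0) + (if ¬ l.Coprime P then (1 : ℝ) else 0) := by
      intro m l
      rw [norm_mul]
      have h0 : ‖a m * b l‖ ≤ 1 := by
        rw [norm_mul]
        have := mul_le_mul (ha m) (hb l) (norm_nonneg _) zero_le_one
        linarith
      unfold cp
      by_cases hm : m.Coprime P
      · by_cases hl : l.Coprime P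
        · rw [if_pos hm, if_pos hl, if_neg (not_not.2 hm), if_neg (not_not.2 hl), sub_self, norm_zero, zero_mul, add_zero]
        · rw [if_pos hm, if_neg hl, if_neg (not_not.2 hm), if_pos (show ¬ l.Coprime P from hl), mul_zero, zero_sub, norm_neg]
          have := mul_le_mul h0 (hJ1 m l) (norm_nonneg _) zero_le_one
          linarith
      · have h5 : ‖(if m.Coprime P then a m else 0) * (if l.Coprime P then b l else 0) - a m * b l‖ ≤ 1 := by
          rw [if_neg hm, zero_mul, zero_sub, norm_neg]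
          exact h0
        have h6 := mul_le_mul h5 (hJ1 m l) (norm_nonneg _) zero_le_one
        have h7 : (0 : ℝ) ≤ if ¬ l.Coprime P then (1 : ℝ) else 0 := by split_ifs <;> norm_num
        rw [if_pos (show ¬ m.Coprime P from hm)]
        linarith
    have h4 : ∑ m ∈ s, (if ¬ m.Coprime P then (1 : ℝ) else 0) ≤ P.primeFactors.card * (M / Z + 1) := by
      rw [sum_boole]
      exact count_nc hZ1 hP hZ
    have h5 : ∑ l ∈ t, (if ¬ l.Coprime P then (1 : ℝ) else 0) ≤ P.primeFactors.card * (L / Z + 1) := by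
      rw [sum_boole]
      exact count_nc hZ1 hP hZ
    calc ‖∑ m ∈ s, ∑ l ∈ t, (cp P a m * cp P b l - a m * b l) * J m l‖
        ≤ ∑ m ∈ s, ∑ l ∈ t, ((if ¬ m.Coprime P then (1 : ℝ) else 0) + (if ¬ l.Coprime P then (1 : ℝ) else 0)) :=
          (norm_sum_le _ _).trans (sum_le_sum fun m _ => (norm_sum_le _ _).trans (sum_le_sum fun l _ => h3 m l))
      _ = (∑ m ∈ s, (if ¬ m.Coprime P then (1 : ℝ) else 0)) * L + M * ∑ l ∈ t, (if ¬ l.Coprime P then (1 : ℝ) else 0) := by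
          have c1 : (t.card : ℝ) = L := by simp [ht]
          have c2 : (s.card : ℝ) = M := by simp [hs]
          rw [sum_congr rfl fun m (_ : m ∈ s) => sum_add_distrib (s := t)
            (f := fun _ => if ¬ m.Coprime P then (1 : ℝ) else 0) (g := fun l => if ¬ l.Coprime P then (1 : ℝ) else 0)]
          rw [sum_add_distrib, sum_const, nsmul_eq_mul, c2]
          congr 1
          rw [sum_mul]
          refine sum_congr rfl fun m _ => ?_
          rw [sum_const, nsmul_eq_mul, c1, mul_comm]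
      _ ≤ _ := add_le_add (mul_le_mul_of_nonneg_right h4 hL0) (mul_le_mul_of_nonneg_left h5 hM0)
  have h3 : ‖(P.totient : ℂ)⁻¹ - (P : ℂ)⁻¹‖ ≤ 1 / (P.totient : ℝ) * (P.primeFactors.card / Z) := by
    have e2 : (P.totient : ℂ)⁻¹ - (P : ℂ)⁻¹ = ((1 / (P.totient : ℝ) - 1 / P : ℝ) : ℂ) := by
      push_cast
      simp only [one_div]
    rw [e2, Complex.norm_real, Real.norm_of_nonneg]
    · exact tot_diff hZ1 hP hZ
    · rw [sub_nonneg]
      exact one_div_le_one_div_of_le htp (by exact_mod_cast Nat.totient_le P)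
  rw [e1]
  refine (norm_add_le _ _).trans ?_
  rw [norm_mul, norm_mul, norm_inv, Complex.norm_natCast]
  have r1 : ((P.totient : ℝ))⁻¹ * ‖S1 - S2‖ ≤
      1 / (P.totient : ℝ) * (P.primeFactors.card * (M / Z + 1) * L + M * (P.primeFactors.card * (L / Z + 1))) := by
    rw [one_div]
    exact mul_le_mul_of_nonneg_left h1 (by positivity)
  have r2 : ‖(P.totient : ℂ)⁻¹ - (P : ℂ)⁻¹‖ * ‖S2‖ ≤ 1 / (P.totient : ℝ) * (P.primeFactors.card / Z) * (M * L) :=
    mul_le_mul h3 h2 (norm_nonneg _) (by positivity)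
  refine (add_le_add r1 r2).trans (le_of_eq ?_)
  field_simp
  ring

/-- **The B-terms.** For `a, b` bounded by one and moduli `d P ≤ X`, all primes of `P` at least `Z`. -/
theorem bterms {d Z X M0 M L0 L : ℕ} (hd : d ≠ 0) (hZ1 : 1 ≤ Z) (hX : 1 ≤ X) {k : ℤ} (S : Finset ℕ)
    (hS : ∀ P ∈ S, P ≠ 0 ∧ d.Coprime P ∧ d * P ≤ X ∧ IsCoprime k ((d * P : ℕ) : ℤ) ∧ ∀ p : ℕ, p.Prime → p ∣ P → Z ≤ p)
    {a b : ℕ → ℂ} (ha : ∀ n, ‖a n‖ ≤ 1) (hb : ∀ n, ‖b n‖ ≤ 1) :
    ∑ P ∈ S, ‖∑ m ∈ Ioc M0 (M0 + M), ∑ l ∈ Ioc L0 (L0 + L),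
        a m * b l * (if (k : ZMod (d * P)) = (m : ZMod (d * P)) * l then 1 else 0) -
      (P : ℂ)⁻¹ * ∑ m ∈ Ioc M0 (M0 + M), ∑ l ∈ Ioc L0 (L0 + L),
        a m * b l * (if (k : ZMod d) = (m : ZMod d) * l then 1 else 0)‖ ≤
      40 * (1 + Real.log X) ^ 3 *
        (X * (Real.sqrt M * Real.sqrt L) + M * Real.sqrt L + L * Real.sqrt M + M * L / Z) := by
  rcases Nat.eq_zero_or_pos M with hM1 | hM1
  · subst hM1
    simp only [add_zero, Ioc_self, sum_empty, mul_zero, sub_zero, norm_zero, sum_const_zero]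
    have hlog : 0 ≤ Real.log X := Real.log_nonneg (by exact_mod_cast hX)
    positivity
  rcases Nat.eq_zero_or_pos L with hL1 | hL1
  · subst hL1
    simp only [add_zero, Ioc_self, sum_empty, sum_const_zero, mul_zero, sub_zero, norm_zero]
    have hlog : 0 ≤ Real.log X := Real.log_nonneg (by exact_mod_cast hX)
    positivity
  have h1 := big_part (M0 := M0) (M := M) (L0 := L0) (L := L) hd hZ1 S hS ha hb
  have hlog : 0 ≤ Real.log X := Real.log_nonneg (by exact_mod_cast hX)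
  have hM0 : (0 : ℝ) ≤ M := Nat.cast_nonneg _
  have hL0 : (0 : ℝ) ≤ L := Nat.cast_nonneg _
  have hZ0 : (0 : ℝ) < Z := by exact_mod_cast hZ1
  set u := Real.sqrt M with hu
  set v := Real.sqrt L with hv
  have hu0 : 0 ≤ u := Real.sqrt_nonneg _
  have hv0 : 0 ≤ v := Real.sqrt_nonneg _
  have huu : u * u = M := Real.mul_self_sqrt hM0
  have hvv : v * v = L := Real.mul_self_sqrt hL0
  have h2 : ∑ P ∈ S, ‖(P.totient : ℂ)⁻¹ * ∑ m ∈ Ioc M0 (M0 + M), ∑ l ∈ Ioc L0 (L0 + L),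
        cp P a m * cp P b l * (if (k : ZMod d) = (m : ZMod d) * l then 1 else 0) -
      (P : ℂ)⁻¹ * ∑ m ∈ Ioc M0 (M0 + M), ∑ l ∈ Ioc L0 (L0 + L),
        a m * b l * (if (k : ZMod d) = (m : ZMod d) * l then 1 else 0)‖ ≤
      (1 + Real.log X) ^ 2 * (2 * Real.log X * (3 * (M * L / Z) + M + L)) := by
    have h3 : ∀ P ∈ S, ‖(P.totient : ℂ)⁻¹ * ∑ m ∈ Ioc M0 (M0 + M), ∑ l ∈ Ioc L0 (L0 + L),
        cp P a m * cp P b l * (if (k : ZMod d) = (m : ZMod d) * l then 1 else 0) -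
      (P : ℂ)⁻¹ * ∑ m ∈ Ioc M0 (M0 + M), ∑ l ∈ Ioc L0 (L0 + L),
        a m * b l * (if (k : ZMod d) = (m : ZMod d) * l then 1 else 0)‖ ≤
        1 / (P.totient : ℝ) * (2 * Real.log X * (3 * (M * L / Z) + M + L)) := by
      intro P hP
      obtain ⟨hP0, hc, hle, hk, hZ⟩ := hS P hP
      refine (err_one hZ1 hP0 hZ ha hb).trans (mul_le_mul_of_nonneg_left ?_ (by positivity))
      refine mul_le_mul_of_nonneg_right ?_ (by positivity)
      refine (card_pf_le (Nat.pos_of_ne_zero hP0)).trans ?_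
      have hPX : P ≤ X := le_trans (Nat.le_mul_of_pos_left P (Nat.pos_of_ne_zero hd)) hle
      have h4 : Real.log P ≤ Real.log X :=
        Real.log_le_log (by exact_mod_cast Nat.pos_of_ne_zero hP0) (by exact_mod_cast hPX)
      linarith
    refine (sum_le_sum h3).trans ?_
    rw [← sum_mul]
    refine mul_le_mul_of_nonneg_right ?_ (by positivity)
    refine le_trans ?_ (sum_inv_tot hX)
    refine sum_le_sum_of_subset_of_nonneg ?_ fun _ _ _ => by positivity
    intro P hP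
    obtain ⟨hP0, hc, hle, hk, hZ⟩ := hS P hP
    rw [mem_Icc]
    exact ⟨Nat.pos_of_ne_zero hP0, le_trans (Nat.le_mul_of_pos_left P (Nat.pos_of_ne_zero hd)) hle⟩
  have h5 : ∑ P ∈ S, ‖∑ m ∈ Ioc M0 (M0 + M), ∑ l ∈ Ioc L0 (L0 + L),
        a m * b l * (if (k : ZMod (d * P)) = (m : ZMod (d * P)) * l then 1 else 0) -
      (P : ℂ)⁻¹ * ∑ m ∈ Ioc M0 (M0 + M), ∑ l ∈ Ioc L0 (L0 + L),
        a m * b l * (if (k : ZMod d) = (m : ZMod d) * l then 1 else 0)‖ ≤
      32 * (1 + Real.log X) ^ 3 * (u * v) * (X + u + v + u * v / Z) +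
      (1 + Real.log X) ^ 2 * (2 * Real.log X * (3 * (M * L / Z) + M + L)) := by
    refine le_trans ?_ (add_le_add h1 h2)
    rw [← sum_add_distrib]
    exact sum_le_sum fun P _ => norm_sub_le_norm_sub_add_norm_sub _ _ _
  refine h5.trans ?_
  -- `M + L ≤ M √L + L √M` if both are positive, trivial otherwise
  have e1 : u * v * (X + u + v + u * v / Z) = X * (u * v) + M * v + L * u + M * L / Z := by
    rw [← huu, ← hvv]
    ring
  have e2 : 32 * (1 + Real.log X) ^ 3 * (u * v) * (X + u + v + u * v / Z) =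
      32 * (1 + Real.log X) ^ 3 * (X * (u * v) + M * v + L * u + M * L / Z) := by
    rw [← e1]
    ring
  rw [e2]
  set W := X * (u * v) + M * v + L * u + M * L / Z with hW
  have hW0 : 0 ≤ W := by positivity
  have f1 : (M : ℝ) ≤ M * v := by
    have : 1 ≤ v := by
      rw [hv, Real.one_le_sqrt]
      exact_mod_cast hL1
    nlinarith
  have f2 : (L : ℝ) ≤ L * u := by
    have : 1 ≤ u := by
      rw [hu, Real.one_le_sqrt]
      exact_mod_cast hM1
    nlinarith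
  have f3 : 3 * (M * L / Z) + M + L ≤ 3 * W := by
    have f4 : 0 ≤ X * (u * v) := by positivity
    have f5 : 0 ≤ M * L / (Z : ℝ) := by positivity
    have f6 : 0 ≤ M * v := by positivity
    have f7 : 0 ≤ L * u := by positivity
    rw [hW]
    linarith
  have f8 : 2 * Real.log X * (3 * (M * L / Z) + M + L) ≤ (1 + Real.log X) * (6 * W) := by
    have := mul_le_mul_of_nonneg_left f3 (by positivity : 0 ≤ 2 * Real.log X)
    nlinarith
  have f9 := mul_le_mul_of_nonneg_left f8 (by positivity : 0 ≤ (1 + Real.log X) ^ 2)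
  have f10 : 0 ≤ (1 + Real.log X) ^ 3 * W := by positivity
  calc 32 * (1 + Real.log X) ^ 3 * W + (1 + Real.log X) ^ 2 * (2 * Real.log X * (3 * (M * L / Z) + M + L))
      ≤ 32 * (1 + Real.log X) ^ 3 * W + (1 + Real.log X) ^ 2 * ((1 + Real.log X) * (6 * W)) := by linarith
    _ = 38 * ((1 + Real.log X) ^ 3 * W) := by ring
    _ ≤ 40 * ((1 + Real.log X) ^ 3 * W) := by linarith
    _ = 40 * (1 + Real.log X) ^ 3 * W := by ring

end Pool.Agent.Helper3.AP
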