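import Pool.Agent.Helper3.AP.BlsE
import Pool.Agent.Helper56.AP.Stmts
import Pool.Agent.Helper7.GPC.Div

/-!
# A' BLS1: the bilinear sums of `b₁` along `m l + k`
-/

set_option autoImplicit false

namespace Pool.Agent.Helper3.AP

open Finset Filter Topology
open Pool.Agent.AP (cr b1 lamR Stmt_BLS1)
open Pool.Agent.Helper69.FF (mf)

lemma fin_ineq {s y z K D lg ML A P B C : ℝ} (hy : 32 ≤ y) (hz : y * z = 1) (hz0 : 0 ≤ z) (hz1 : z ≤ 1)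
    (hK0 : 0 ≤ K) (hK : K ≤ y ^ 2) (hD0 : 0 ≤ D) (hD : D ≤ y ^ 2) (hs : 0 ≤ s)
    (hlg : 1 ≤ lg) (hlg5 : 32 * lg ^ 5 ≤ y) (hML0 : 0 ≤ ML) (hML : ML ≤ s ^ 2 * y ^ 2) (hA0 : 0 ≤ A) (hA : A ≤ 16 * z ^ 200)
    (hP0 : 0 ≤ P) (hP : P ≤ s * y) (hB0 : 0 ≤ B) (hB : B ≤ 4 * (s * z ^ 99)) (hC0 : 0 ≤ C) (hC : C ≤ s ^ 2 * y ^ 2 * z ^ 200) :
    K ^ 2 * D * lg ^ 2 * (K * (ML * D ^ 2 * A * lg ^ 2 + 32 * D * lg ^ 3 * P * B)) + K ^ 2 * D ^ 4 * lg ^ 2 * C ≤ s ^ 2 * z ^ 86 := by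
  have hy0 : 0 ≤ y := by linarith
  have l2 : lg ^ 2 ≤ lg ^ 5 := pow_le_pow_right₀ hlg (by norm_num)
  have l4 : lg ^ 4 ≤ lg ^ 5 := pow_le_pow_right₀ hlg (by norm_num)
  have l5 : 0 ≤ lg ^ 5 := by positivity
  have hl4 : lg ^ 4 ≤ y := by linarith
  have hl2 : lg ^ 2 ≤ y := by linarith
  have hK3 : K ^ 3 ≤ (y ^ 2) ^ 3 := pow_le_pow_left₀ hK0 hK 3
  have hK2 : K ^ 2 ≤ (y ^ 2) ^ 2 := pow_le_pow_left₀ hK0 hK 2
  have hD3 : D ^ 3 ≤ (y ^ 2) ^ 3 := pow_le_pow_left₀ hD0 hD 3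
  have hD2 : D ^ 2 ≤ (y ^ 2) ^ 2 := pow_le_pow_left₀ hD0 hD 2
  have hD4 : D ^ 4 ≤ (y ^ 2) ^ 4 := pow_le_pow_left₀ hD0 hD 4
  have hyz : ∀ n : ℕ, y ^ n * z ^ n = 1 := fun n => by rw [← mul_pow, hz, one_pow]
  have hz87 : 32 * z ^ 87 ≤ z ^ 86 := by
    have h1 : z ^ 87 = z * z ^ 86 := by ring
    have h2 : 32 * z ≤ 1 := by
      rw [← hz]
      exact mul_le_mul_of_nonneg_right hy hz0
    rw [h1]
    have h3 : 0 ≤ z ^ 86 := pow_nonneg hz0 86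
    nlinarith
  have t1 : K ^ 2 * D * lg ^ 2 * (K * (ML * D ^ 2 * A * lg ^ 2)) ≤ 16 * (s ^ 2 * z ^ 87) := by
    calc K ^ 2 * D * lg ^ 2 * (K * (ML * D ^ 2 * A * lg ^ 2)) = K ^ 3 * D ^ 3 * lg ^ 4 * ML * A := by ring
      _ ≤ (y ^ 2) ^ 3 * (y ^ 2) ^ 3 * y * (s ^ 2 * y ^ 2) * (16 * z ^ 200) := by
          gcongr
      _ = 16 * (s ^ 2 * z ^ 185) * (y ^ 15 * z ^ 15) := by ring
      _ = 16 * (s ^ 2 * z ^ 185) := by rw [hyz, mul_one]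
      _ ≤ 16 * (s ^ 2 * z ^ 87) := by
          have : z ^ 185 ≤ z ^ 87 := pow_le_pow_of_le_one hz0 hz1 (by norm_num)
          gcongr
  have t2 : K ^ 2 * D * lg ^ 2 * (K * (32 * D * lg ^ 3 * P * B)) ≤ 4 * (s ^ 2 * z ^ 87) := by
    calc K ^ 2 * D * lg ^ 2 * (K * (32 * D * lg ^ 3 * P * B)) = K ^ 3 * D ^ 2 * (32 * lg ^ 5) * P * B := by ring
      _ ≤ (y ^ 2) ^ 3 * (y ^ 2) ^ 2 * y * (s * y) * (4 * (s * z ^ 99)) := by
          gcongr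
      _ = 4 * (s ^ 2 * z ^ 87) * (y ^ 12 * z ^ 12) := by ring
      _ = 4 * (s ^ 2 * z ^ 87) := by rw [hyz, mul_one]
  have t3 : K ^ 2 * D ^ 4 * lg ^ 2 * C ≤ s ^ 2 * z ^ 87 := by
    calc K ^ 2 * D ^ 4 * lg ^ 2 * C ≤ (y ^ 2) ^ 2 * (y ^ 2) ^ 4 * y * (s ^ 2 * y ^ 2 * z ^ 200) := by
          gcongr
      _ = s ^ 2 * z ^ 185 * (y ^ 15 * z ^ 15) := by ring
      _ = s ^ 2 * z ^ 185 := by rw [hyz, mul_one]
      _ ≤ s ^ 2 * z ^ 87 := by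
          have : z ^ 185 ≤ z ^ 87 := pow_le_pow_of_le_one hz0 hz1 (by norm_num)
          gcongr
  have e1 : K ^ 2 * D * lg ^ 2 * (K * (ML * D ^ 2 * A * lg ^ 2 + 32 * D * lg ^ 3 * P * B)) =
      K ^ 2 * D * lg ^ 2 * (K * (ML * D ^ 2 * A * lg ^ 2)) + K ^ 2 * D * lg ^ 2 * (K * (32 * D * lg ^ 3 * P * B)) := by ring
  rw [e1]
  have h5 : 0 ≤ s ^ 2 := by positivity
  have h6 : s ^ 2 * (32 * z ^ 87) ≤ s ^ 2 * z ^ 86 := mul_le_mul_of_nonneg_left hz87 h5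
  have h7 : 0 ≤ s ^ 2 * z ^ 87 := mul_nonneg h5 (pow_nonneg hz0 87)
  linarith

lemma b1_eq {κ2 e T : ℝ} (hT : 1 ≤ T) (h : κ2 + e < 1 / 2) (n : ℤ) :
    b1 κ2 e T n = ∑ r ∈ Ioc ⌊T ^ κ2⌋₊ ⌊T ^ (1 / 2 - e)⌋₊, mf r * cr r n := by
  unfold b1 lamR
  have h1 : ⌊T ^ κ2⌋₊ ≤ ⌊T ^ (1 / 2 - e)⌋₊ :=
    Nat.floor_le_floor (Real.rpow_le_rpow_of_exponent_le hT (by linarith))
  rw [sub_eq_iff_eq_add]
  have h2 : Ioc ⌊T ^ κ2⌋₊ ⌊T ^ (1 / 2 - e)⌋₊ = Icc 1 ⌊T ^ (1 / 2 - e)⌋₊ \ Icc 1 ⌊T ^ κ2⌋₊ := by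
    ext r
    simp only [Finset.mem_Ioc, Finset.mem_sdiff, Finset.mem_Icc]
    omega
  rw [h2, sum_sdiff (Icc_subset_Icc_right h1)]

lemma mf_abs (r : ℕ) : |mf r| ≤ 1 / (r.totient : ℝ) := by
  unfold mf
  rw [abs_div, abs_of_nonneg (Nat.cast_nonneg r.totient : (0 : ℝ) ≤ (r.totient : ℝ))]
  refine div_le_div_of_nonneg_right ?_ (Nat.cast_nonneg _)
  have := ArithmeticFunction.abs_moebius_le_one (n := r)
  exact_mod_cast this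

lemma mf_zero {r : ℕ} (h : ¬ Squarefree r) : mf r = 0 := by
  unfold mf
  rw [ArithmeticFunction.moebius_eq_zero_of_not_squarefree h]
  simp

/-- reduction of the sum of `b₁` to the sums over the moduli -/
lemma b1_sum_le {κ2 e T : ℝ} (hT : 1 ≤ T) (h : κ2 + e < 1 / 2) (s t : Finset ℕ) (α β : ℕ → ℝ) (k : ℤ) :
    |∑ m ∈ s, ∑ l ∈ t, α m * β l * b1 κ2 e T (m * l + k)| ≤
      ∑ r ∈ (Ioc ⌊T ^ κ2⌋₊ ⌊T ^ (1 / 2 - e)⌋₊).filter Squarefree, (1 : ℝ) / r.totient *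
        ‖∑ m ∈ s, ∑ l ∈ t, (α m : ℂ) * (β l : ℂ) * ((cr r ((m : ℤ) * l + k) : ℝ) : ℂ)‖ := by
  have e1 : ∑ m ∈ s, ∑ l ∈ t, α m * β l * b1 κ2 e T (m * l + k) =
      ∑ r ∈ Ioc ⌊T ^ κ2⌋₊ ⌊T ^ (1 / 2 - e)⌋₊, mf r * ∑ m ∈ s, ∑ l ∈ t, α m * β l * cr r ((m : ℤ) * l + k) := by
    simp_rw [b1_eq hT h, mul_sum]
    calc ∑ m ∈ s, ∑ l ∈ t, ∑ r ∈ Ioc ⌊T ^ κ2⌋₊ ⌊T ^ (1 / 2 - e)⌋₊, α m * β l * (mf r * cr r ((m : ℤ) * l + k))
        = ∑ m ∈ s, ∑ r ∈ Ioc ⌊T ^ κ2⌋₊ ⌊T ^ (1 / 2 - e)⌋₊, ∑ l ∈ t, α m * β l * (mf r * cr r ((m : ℤ) * l + k)) :=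
          sum_congr rfl fun m _ => sum_comm
      _ = ∑ r ∈ Ioc ⌊T ^ κ2⌋₊ ⌊T ^ (1 / 2 - e)⌋₊, ∑ m ∈ s, ∑ l ∈ t, α m * β l * (mf r * cr r ((m : ℤ) * l + k)) := sum_comm
      _ = _ := sum_congr rfl fun r _ => sum_congr rfl fun m _ => sum_congr rfl fun l _ => by ring
  rw [e1]
  refine (abs_sum_le_sum_abs _ _).trans ?_
  rw [sum_filter]
  refine sum_le_sum fun r _ => ?_
  split_ifs with hsq
  · rw [abs_mul]
    have e2 : |∑ m ∈ s, ∑ l ∈ t, α m * β l * cr r ((m : ℤ) * l + k)| =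
        ‖∑ m ∈ s, ∑ l ∈ t, (α m : ℂ) * (β l : ℂ) * ((cr r ((m : ℤ) * l + k) : ℝ) : ℂ)‖ := by
      rw [← Real.norm_eq_abs, ← Complex.norm_real]
      push_cast
      rfl
    rw [e2]
    exact mul_le_mul_of_nonneg_right (mf_abs r) (norm_nonneg _)
  · rw [mf_zero hsq, zero_mul, abs_zero]

theorem BLS1 : Stmt_BLS1 := by
  intro κ2 e ρ h2 he h hρ hρ2 hρe
  obtain ⟨C, hC1, hC⟩ := Pool.Agent.Helper7.GPC.card_divisors_le (ε := ρ / 400) (by positivity)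
  have ev1 : ∀ᶠ T : ℝ in atTop, max 32 C ≤ T ^ (ρ / 200) := (tendsto_rpow_atTop (by positivity)).eventually_ge_atTop _
  have ev2 : ∀ᶠ T : ℝ in atTop, 32 * (1 + Real.log T) ^ 5 ≤ T ^ (ρ / 200) := by
    have h1 := (isLittleO_log_rpow_rpow_atTop (5 : ℝ) (show 0 < ρ / 200 by positivity)).bound (show (0 : ℝ) < 1 / 1024 by norm_num)
    filter_upwards [h1, eventually_ge_atTop (Real.exp 1)] with T h2 h3
    have h4 : 1 ≤ Real.log T := by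
      rw [← Real.log_exp 1]
      exact Real.log_le_log (Real.exp_pos 1) h3
    have hT0 : 0 < T := (Real.exp_pos 1).trans_le h3
    rw [Real.norm_of_nonneg (Real.rpow_nonneg (by linarith) _), Real.norm_of_nonneg (Real.rpow_nonneg hT0.le _)] at h2
    have h5 : Real.log T ^ (5 : ℝ) = Real.log T ^ 5 := by
      rw [← Real.rpow_natCast]
      norm_num
    rw [h5] at h2
    have h6 : (1 + Real.log T) ^ 5 ≤ (2 * Real.log T) ^ 5 := pow_le_pow_left₀ (by linarith) (by linarith) 5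
    have h7 : (2 * Real.log T) ^ 5 = 32 * Real.log T ^ 5 := by ring
    linarith
  filter_upwards [ev1, ev2, eventually_ge_atTop (4 : ℝ)] with T hy hl hT4 k M L M₀ L₀ α β hk hkT hM hL hM0 hL0 hML hα hβ
  have hT1 : 1 ≤ T := by linarith
  have hT0 : 0 < T := by linarith
  have hρs : ρ < 1 / 16 := by linarith
  set y := T ^ (ρ / 200) with hydef
  set z := T ^ (-(ρ / 200)) with hzdef
  set s := T ^ (1 / 2 : ℝ) with hsdef
  have hyn : ∀ n : ℕ, y ^ n = T ^ (ρ / 200 * n) := fun n => by rw [hydef, ← Real.rpow_natCast, ← Real.rpow_mul hT0.le]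
  have hzn : ∀ n : ℕ, z ^ n = T ^ (-(ρ / 200) * n) := fun n => by rw [hzdef, ← Real.rpow_natCast, ← Real.rpow_mul hT0.le]
  have hy32 : 32 ≤ y := (le_max_left _ _).trans hy
  have hyC : C ≤ y := (le_max_right _ _).trans hy
  have hyz : y * z = 1 := by
    rw [hydef, hzdef, ← Real.rpow_add hT0]
    simp
  have hy0 : 0 ≤ y := by linarith
  have hz0 : 0 ≤ z := Real.rpow_nonneg hT0.le _
  have hz1 : z ≤ 1 := Real.rpow_le_one_of_one_le_of_nonpos hT1 (by linarith)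
  have hs0 : 0 ≤ s := Real.rpow_nonneg hT0.le _
  have hy2 : y ^ 2 = T ^ (ρ / 100) := by
    rw [hyn]
    congr 1
    push_cast
    ring
  have hs2 : s ^ 2 = T := by
    rw [hsdef, ← Real.rpow_natCast, ← Real.rpow_mul hT0.le]
    norm_num
  have hz200 : z ^ 200 = T ^ (-ρ) := by
    rw [hzn]
    congr 1
    push_cast
    ring
  have hTr : T ^ (1 + ρ / 100) = s ^ 2 * y ^ 2 := by
    rw [Real.rpow_add hT0, Real.rpow_one, hs2, hy2]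
  have hsz : s * z ^ 99 = T ^ (1 / 2 - 99 * ρ / 200) := by
    rw [hzn, hsdef, ← Real.rpow_add hT0]
    congr 1
    push_cast
    ring
  -- the parameters
  set Q := ⌈T ^ ρ⌉₊ with hQdef
  set R0 := ⌊T ^ κ2⌋₊ with hR0def
  set R := ⌊T ^ (1 / 2 - e)⌋₊ with hRdef
  have hTρ1 : 1 ≤ T ^ ρ := Real.one_le_rpow hT1 hρ.le
  have hTρ0 : 0 < T ^ ρ := by linarith
  have hTy : y ^ 2 ≤ T ^ ρ := by
    rw [hy2]
    exact Real.rpow_le_rpow_of_exponent_le hT1 (by linarith)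
  have hy4 : 4 ≤ T ^ ρ := by nlinarith
  have hQlo : T ^ ρ ≤ Q := Nat.le_ceil _
  have hQhi : (Q : ℝ) ≤ 2 * T ^ ρ := by
    have := (Nat.ceil_lt_add_one hTρ0.le).le
    linarith
  have hQpos : (0 : ℝ) < Q := by linarith
  have hQ1 : 1 ≤ Q := by exact_mod_cast (by linarith : (1 : ℝ) ≤ Q)
  have hκ : T ^ (8 * ρ) ≤ T ^ κ2 := Real.rpow_le_rpow_of_exponent_le hT1 hρ2
  have hκ2 : 2 * T ^ ρ ≤ T ^ κ2 := by
    have h1 : T ^ ρ * T ^ ρ ≤ T ^ (8 * ρ) := by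
      rw [← Real.rpow_add hT0]
      exact Real.rpow_le_rpow_of_exponent_le hT1 (by linarith)
    nlinarith
  have hR0lo : T ^ κ2 / 2 ≤ R0 := by
    have h1 := Nat.lt_floor_add_one (T ^ κ2)
    rw [← hR0def] at h1
    linarith
  have hR0pos : (0 : ℝ) < R0 := by linarith
  have hR01 : 1 ≤ R0 := by
    have : 0 < R0 := by exact_mod_cast hR0pos
    omega
  have hQR : Q ≤ R := by
    refine Nat.le_floor (hQhi.trans (hκ2.trans ?_))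
    exact Real.rpow_le_rpow_of_exponent_le hT1 (by linarith)
  have hR1 : 1 ≤ R := hQ1.trans hQR
  have hRhi : (R : ℝ) ≤ T ^ (1 / 2 - e) := Nat.floor_le (Real.rpow_nonneg hT0.le _)
  have hRT : (R : ℝ) ≤ T := by
    refine hRhi.trans ?_
    calc T ^ (1 / 2 - e) ≤ T ^ (1 : ℝ) := Real.rpow_le_rpow_of_exponent_le hT1 (by linarith)
      _ = T := Real.rpow_one T
  have hka : ((k.natAbs : ℕ) : ℝ) = |(k : ℝ)| := by
    rw [Nat.cast_natAbs]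
    push_cast
    rfl
  have hkQ : k.natAbs ≤ Q := by
    have h1 : ((k.natAbs : ℕ) : ℝ) ≤ Q := by
      rw [hka]
      refine hkT.trans (le_trans ?_ hQlo)
      rw [← hy2]
      exact hTy
    exact_mod_cast h1
  -- the divisor bound
  have hDv : ∀ n : ℕ, 1 ≤ n → (n : ℝ) ≤ T ^ (2 : ℝ) → ((n.divisors.card : ℕ) : ℝ) ≤ y ^ 2 := by
    intro n hn hnT
    refine (hC n (by omega)).trans ?_
    have h1 : (n : ℝ) ^ (ρ / 400) ≤ y := by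
      calc (n : ℝ) ^ (ρ / 400) ≤ (T ^ (2 : ℝ)) ^ (ρ / 400) := Real.rpow_le_rpow (Nat.cast_nonneg _) hnT (by positivity)
        _ = y := by
          rw [hydef, ← Real.rpow_mul hT0.le]
          congr 1
          ring
    calc C * (n : ℝ) ^ (ρ / 400) ≤ y * y := mul_le_mul hyC h1 (Real.rpow_nonneg (Nat.cast_nonneg _) _) hy0
      _ = y ^ 2 := (sq y).symm
  have hT2 : T ^ (2 : ℝ) = T * T := by
    rw [Real.rpow_two, sq]
  have hD1 : ∀ n : ℕ, 1 ≤ n → n ≤ R → ((n.divisors.card : ℕ) : ℝ) ≤ y ^ 2 := by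
    intro n hn hnR
    refine hDv n hn ?_
    have h1 : (n : ℝ) ≤ R := by exact_mod_cast hnR
    rw [hT2]
    nlinarith
  obtain ⟨M', rfl⟩ : ∃ M', M = M₀ + M' := ⟨M - M₀, by omega⟩
  obtain ⟨L', rfl⟩ : ∃ L', L = L₀ + L' := ⟨L - L₀, by omega⟩
  have hD2 : ∀ n : ℕ, 1 ≤ n → n ≤ (M₀ + M') * (L₀ + L') + k.natAbs → ((n.divisors.card : ℕ) : ℝ) ≤ y ^ 2 := by
    intro n hn hnM
    refine hDv n hn ?_
    have h1 : (n : ℝ) ≤ ((M₀ + M' : ℕ) : ℝ) * ((L₀ + L' : ℕ) : ℝ) + |(k : ℝ)| := by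
      rw [← hka]
      exact_mod_cast hnM
    have h3 : T ^ (1 + ρ / 100) ≤ T ^ (3 / 2 : ℝ) := Real.rpow_le_rpow_of_exponent_le hT1 (by linarith)
    have h4 : T ^ (ρ / 100) ≤ T ^ (3 / 2 : ℝ) := Real.rpow_le_rpow_of_exponent_le hT1 (by linarith)
    have h5 : T ^ (2 : ℝ) = T ^ (3 / 2 : ℝ) * s := by
      rw [hsdef, ← Real.rpow_add hT0]
      norm_num
    have h6 : 2 ≤ s := by
      by_contra h7
      push Not at h7
      nlinarith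
    have h7 : 0 ≤ T ^ (3 / 2 : ℝ) := Real.rpow_nonneg hT0.le _
    rw [h5]
    nlinarith
  have hcore := core (M0 := M₀) (M := M') (L0 := L₀) (L := L') hQ1 hQ1 hQR hR01 hk hkQ hD1 hD2
    (a := fun n => (α n : ℂ)) (b := fun n => (β n : ℂ))
    (fun n => by rw [Complex.norm_real, Real.norm_eq_abs]; exact hα n)
    (fun n => by rw [Complex.norm_real, Real.norm_eq_abs]; exact hβ n)
  refine (b1_sum_le hT1 h _ _ α β k).trans (hcore.trans ?_)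
  have hM'0 : (0 : ℝ) ≤ M' := Nat.cast_nonneg _
  have hL'0 : (0 : ℝ) ≤ L' := Nat.cast_nonneg _
  have hM'M : (M' : ℝ) ≤ ((M₀ + M' : ℕ) : ℝ) := by exact_mod_cast Nat.le_add_left _ _
  have hL'L : (L' : ℝ) ≤ ((L₀ + L' : ℕ) : ℝ) := by exact_mod_cast Nat.le_add_left _ _
  have hMr0 : (0 : ℝ) ≤ ((M₀ + M' : ℕ) : ℝ) := Nat.cast_nonneg _
  have hLr0 : (0 : ℝ) ≤ ((L₀ + L' : ℕ) : ℝ) := Nat.cast_nonneg _
  have hML' : (M' : ℝ) * L' ≤ s ^ 2 * y ^ 2 := by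
    rw [← hTr]
    exact (mul_le_mul hM'M hL'L hL'0 hMr0).trans hML
  have hT99 : T ^ (1 + ρ / 100) = (s * z ^ 99) ^ 2 * T ^ ρ := by
    rw [hsz, ← Real.rpow_natCast, ← Real.rpow_mul hT0.le, ← Real.rpow_add hT0]
    congr 1
    push_cast
    ring
  have hsz0 : 0 ≤ s * z ^ 99 := mul_nonneg hs0 (pow_nonneg hz0 99)
  have hMs : Real.sqrt M' ≤ s * z ^ 99 := by
    refine Real.sqrt_le_iff.2 ⟨hsz0, ?_⟩
    have h1 : ((M₀ + M' : ℕ) : ℝ) * T ^ ρ ≤ (s * z ^ 99) ^ 2 * T ^ ρ := by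
      rw [← hT99]
      exact (mul_le_mul_of_nonneg_left hL hMr0).trans hML
    exact hM'M.trans (le_of_mul_le_mul_right h1 hTρ0)
  have hLs : Real.sqrt L' ≤ s * z ^ 99 := by
    refine Real.sqrt_le_iff.2 ⟨hsz0, ?_⟩
    have h1 : ((L₀ + L' : ℕ) : ℝ) * T ^ ρ ≤ (s * z ^ 99) ^ 2 * T ^ ρ := by
      rw [← hT99]
      refine (mul_le_mul_of_nonneg_left hM hLr0).trans ?_
      rw [mul_comm]
      exact hML
    exact hL'L.trans (le_of_mul_le_mul_right h1 hTρ0)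
  have hP : Real.sqrt M' * Real.sqrt L' ≤ s * y := by
    rw [← Real.sqrt_mul hM'0]
    refine Real.sqrt_le_iff.2 ⟨mul_nonneg hs0 hy0, ?_⟩
    rw [mul_pow]
    exact hML'
  have hRs : (R : ℝ) ≤ s * z ^ 99 := by
    refine hRhi.trans ?_
    rw [hsz]
    exact Real.rpow_le_rpow_of_exponent_le hT1 (by linarith)
  have hQz : 1 / (Q : ℝ) ≤ z ^ 200 := by
    rw [hz200, Real.rpow_neg hT0.le, ← one_div]
    exact one_div_le_one_div_of_le hTρ0 hQlo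
  have hPQ : Real.sqrt M' * Real.sqrt L' / Q ≤ s * z ^ 99 := by
    have h1 : z ^ 200 * y ≤ z ^ 99 := by
      have h3 : z ^ 200 * y = z ^ 199 * (y * z) := by ring
      rw [h3, hyz, mul_one]
      exact pow_le_pow_of_le_one hz0 hz1 (by norm_num)
    calc Real.sqrt M' * Real.sqrt L' / Q = Real.sqrt M' * Real.sqrt L' * (1 / Q) := by rw [mul_one_div]
      _ ≤ s * y * z ^ 200 := mul_le_mul hP hQz (by positivity) (mul_nonneg hs0 hy0)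
      _ = s * (z ^ 200 * y) := by ring
      _ ≤ s * z ^ 99 := mul_le_mul_of_nonneg_left h1 hs0
  have hA : (Q : ℝ) ^ 2 / (R0 / Q) ≤ 16 * z ^ 200 := by
    have h1 : (Q : ℝ) ^ 2 / (R0 / Q) = Q ^ 3 / R0 := by
      field_simp
    rw [h1, div_le_iff₀ hR0pos, hz200]
    have h3 : (Q : ℝ) ^ 3 ≤ (2 * T ^ ρ) ^ 3 := pow_le_pow_left₀ hQpos.le hQhi 3
    have h4 : (T ^ ρ) ^ 3 ≤ T ^ (-ρ) * T ^ κ2 := by
      rw [← Real.rpow_natCast, ← Real.rpow_mul hT0.le, ← Real.rpow_add hT0]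
      refine Real.rpow_le_rpow_of_exponent_le hT1 ?_
      push_cast
      linarith
    have h5 : 0 < T ^ (-ρ) := Real.rpow_pos_of_pos hT0 _
    have h6 : T ^ (-ρ) * (T ^ κ2 / 2) ≤ T ^ (-ρ) * R0 := mul_le_mul_of_nonneg_left hR0lo h5.le
    calc (Q : ℝ) ^ 3 ≤ (2 * T ^ ρ) ^ 3 := h3
      _ = 8 * (T ^ ρ) ^ 3 := by ring
      _ ≤ 8 * (T ^ (-ρ) * T ^ κ2) := by linarith
      _ = 16 * (T ^ (-ρ) * (T ^ κ2 / 2)) := by ring
      _ ≤ 16 * (T ^ (-ρ) * R0) := by linarith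
      _ = 16 * T ^ (-ρ) * R0 := by ring
  have hlogR : 0 ≤ Real.log R := Real.log_nonneg (by exact_mod_cast hR1)
  have hlg5 : 32 * (1 + Real.log R) ^ 5 ≤ y := by
    refine le_trans ?_ hl
    have h1 : Real.log R ≤ Real.log T := Real.log_le_log (by exact_mod_cast hR1) hRT
    have h3 : (1 + Real.log R) ^ 5 ≤ (1 + Real.log T) ^ 5 := pow_le_pow_left₀ (by linarith) (by linarith) 5
    linarith
  have hCc : (M' : ℝ) * L' / Q ≤ s ^ 2 * y ^ 2 * z ^ 200 := by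
    rw [← mul_one_div]
    exact mul_le_mul hML' hQz (by positivity) (by positivity)
  have hfin := fin_ineq (s := s) (y := y) (z := z) (K := |(k : ℝ)|) (D := y ^ 2) (lg := 1 + Real.log R) (ML := (M' : ℝ) * L')
    (A := (Q : ℝ) ^ 2 / (R0 / Q)) (P := Real.sqrt M' * Real.sqrt L')
    (B := (R : ℝ) + Real.sqrt M' + Real.sqrt L' + Real.sqrt M' * Real.sqrt L' / Q) (C := (M' : ℝ) * L' / Q)
    hy32 hyz hz0 hz1 (abs_nonneg _) (by rw [hy2]; exact hkT) (by positivity) le_rfl hs0 (by linarith) hlg5 (by positivity) hML'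
    (by positivity) hA (by positivity) hP (by positivity) (by linarith) (by positivity) hCc
  refine hfin.trans ?_
  rw [hs2, hzn]
  calc T * T ^ (-(ρ / 200) * ((86 : ℕ) : ℝ)) = T ^ (1 + -(ρ / 200) * ((86 : ℕ) : ℝ)) := by
        rw [Real.rpow_add hT0, Real.rpow_one]
    _ ≤ T ^ (1 - ρ / 3) := by
        refine Real.rpow_le_rpow_of_exponent_le hT1 ?_
        push_cast
        linarith

end Pool.Agent.Helper3.AP
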