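import Pool.Agent.Helper3.AP.BtSum
import Pool.Agent.Helper56.AP.Defs

/-!
# A' BLS1, part 1: Ramanujan sums and characters, one modulus
-/

set_option autoImplicit false

namespace Pool.Agent.Helper3.AP

open Finset
open Pool.Agent.AP (cr)

/-- `n / φ(n)` on the integers coprime to `k` -/
noncomputable def Fk (k : ℤ) : ArithmeticFunction ℝ :=
  ⟨fun n => if IsCoprime k (n : ℤ) then (n : ℝ) / n.totient else 0, by simp⟩

lemma Fk_apply (k : ℤ) (n : ℕ) : Fk k n = if IsCoprime k (n : ℤ) then (n : ℝ) / n.totient else 0 := rfl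

lemma Fk_mult (k : ℤ) : (Fk k).IsMultiplicative := by
  refine ⟨?_, fun {m n} h => ?_⟩
  · rw [Fk_apply, if_pos (by rw [Nat.cast_one]; exact isCoprime_one_right)]
    simp
  · rw [Fk_apply, Fk_apply, Fk_apply]
    have hiff : IsCoprime k ((m * n : ℕ) : ℤ) ↔ IsCoprime k (m : ℤ) ∧ IsCoprime k (n : ℤ) := by
      push_cast
      exact IsCoprime.mul_right_iff
    by_cases h1 : IsCoprime k (m : ℤ)
    · by_cases h2 : IsCoprime k (n : ℤ)
      · rw [if_pos (hiff.2 ⟨h1, h2⟩), if_pos h1, if_pos h2, Nat.totient_mul h]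
        push_cast
        rw [mul_div_mul_comm]
      · rw [if_neg (fun h => h2 (hiff.1 h).2), if_neg h2, mul_zero]
    · rw [if_neg (fun h => h1 (hiff.1 h).1), if_neg h1, zero_mul]

/-- the sum `∑_{g | s, (g,k)=1} (g/φ(g)) μ(s/g)` -/
noncomputable def fs (k : ℤ) (s : ℕ) : ℝ :=
  ∑ g ∈ s.divisors, (if IsCoprime k (g : ℤ) then (g : ℝ) / g.totient else 0) * (ArithmeticFunction.moebius (s / g) : ℝ)

lemma fs_eq (k : ℤ) (s : ℕ) : fs k s = (Fk k * ((ArithmeticFunction.moebius : ArithmeticFunction ℤ) : ArithmeticFunction ℝ)) s := by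
  rw [ArithmeticFunction.mul_apply, Nat.sum_divisorsAntidiagonal
    (fun i j => Fk k i * ((ArithmeticFunction.moebius : ArithmeticFunction ℤ) : ArithmeticFunction ℝ) j)]
  unfold fs
  refine sum_congr rfl fun g _ => ?_
  rw [Fk_apply, ArithmeticFunction.intCoe_apply]

lemma fs_prime (k : ℤ) {p : ℕ} (hp : p.Prime) :
    |(Fk k * ((ArithmeticFunction.moebius : ArithmeticFunction ℤ) : ArithmeticFunction ℝ)) p| ≤
      (if (p : ℤ) ∣ k then (p : ℝ) else 1) / p.totient := by
  have h1 : (Fk k * ((ArithmeticFunction.moebius : ArithmeticFunction ℤ) : ArithmeticFunction ℝ)) p = -1 + Fk k p := by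
    rw [← fs_eq]
    unfold fs
    rw [hp.divisors, sum_pair hp.one_lt.ne]
    rw [Nat.div_one, Nat.div_self hp.pos, ArithmeticFunction.moebius_apply_prime hp, ArithmeticFunction.moebius_apply_one,
      if_pos (by rw [Nat.cast_one]; exact isCoprime_one_right), ← Fk_apply]
    simp
  have hp1 : (1 : ℝ) < p := by exact_mod_cast hp.one_lt
  have ht : (p.totient : ℝ) = p - 1 := by
    rw [Nat.totient_prime hp, Nat.cast_sub hp.one_lt.le, Nat.cast_one]
  rw [h1, Fk_apply, ht]
  by_cases h : (p : ℤ) ∣ k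
  · have h2 : ¬ IsCoprime k (p : ℤ) := by
      intro hc
      have := (Nat.prime_iff_prime_int.1 hp).not_isUnit (hc.symm.isUnit_of_dvd' dvd_rfl h)
      exact this
    rw [if_neg h2, if_pos h, add_zero, abs_neg, abs_one, le_div_iff₀ (by linarith)]
    linarith
  · have h2 : IsCoprime k (p : ℤ) := ((Nat.prime_iff_prime_int.1 hp).coprime_iff_not_dvd.2 h).symm
    rw [if_pos h2, if_neg h]
    have h3 : -1 + (p : ℝ) / (p - 1) = 1 / (p - 1) := by
      have : (p : ℝ) - 1 ≠ 0 := by linarith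
      field_simp
      ring
    rw [h3, abs_of_pos (by
      have : (0 : ℝ) < p - 1 := by linarith
      positivity)]

lemma fs_bound {k : ℤ} (hk : k ≠ 0) {s : ℕ} (hs : Squarefree s) : |fs k s| ≤ |(k : ℝ)| / s.totient := by
  have hmul : (Fk k * ((ArithmeticFunction.moebius : ArithmeticFunction ℤ) : ArithmeticFunction ℝ)).IsMultiplicative :=
    (Fk_mult k).mul ArithmeticFunction.isMultiplicative_moebius.intCast
  have h1 := ArithmeticFunction.IsMultiplicative.map_prod_of_subset_primeFactors hmul s s.primeFactors subset_rfl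
  rw [Nat.prod_primeFactors_of_squarefree hs] at h1
  have hs0 : 0 < s := Nat.pos_of_ne_zero hs.ne_zero
  have h2 : (s.totient : ℝ) = ∏ p ∈ s.primeFactors, (p.totient : ℝ) := by
    have h3 := Nat.totient_eq_div_primeFactors_mul s
    rw [Nat.prod_primeFactors_of_squarefree hs, Nat.div_self hs0, one_mul] at h3
    rw [h3]
    push_cast
    refine prod_congr rfl fun p hp => ?_
    rw [Nat.totient_prime (Nat.prime_of_mem_primeFactors hp)]
  have h3 : ∏ p ∈ s.primeFactors, (if (p : ℤ) ∣ k then (p : ℝ) else 1) ≤ |(k : ℝ)| := by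
    rw [← prod_filter]
    have h4 : ∏ p ∈ s.primeFactors.filter (fun p : ℕ => (p : ℤ) ∣ k), p ∣ k.natAbs := by
      refine prod_primes_dvd k.natAbs (fun p hp => ?_) fun p hp => ?_
      · exact (Nat.prime_of_mem_primeFactors (mem_filter.1 hp).1).prime
      · exact Int.natCast_dvd.1 (mem_filter.1 hp).2
    have h5 := Nat.le_of_dvd (Int.natAbs_pos.2 hk) h4
    have h6 : ((∏ p ∈ s.primeFactors.filter (fun p : ℕ => (p : ℤ) ∣ k), p : ℕ) : ℝ) ≤ ((k.natAbs : ℕ) : ℝ) := by exact_mod_cast h5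
    rw [Nat.cast_natAbs] at h6
    push_cast at h6
    exact h6
  rw [fs_eq, h1, abs_prod, h2]
  calc ∏ p ∈ s.primeFactors, |(Fk k * ((ArithmeticFunction.moebius : ArithmeticFunction ℤ) : ArithmeticFunction ℝ)) p|
      ≤ ∏ p ∈ s.primeFactors, (if (p : ℤ) ∣ k then (p : ℝ) else 1) / p.totient :=
        prod_le_prod (fun _ _ => abs_nonneg _) fun p hp => fs_prime k (Nat.prime_of_mem_primeFactors hp)
    _ = (∏ p ∈ s.primeFactors, (if (p : ℤ) ∣ k then (p : ℝ) else 1)) / ∏ p ∈ s.primeFactors, (p.totient : ℝ) := prod_div_distrib ..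
    _ ≤ _ := div_le_div_of_nonneg_right h3 (prod_nonneg fun _ _ => Nat.cast_nonneg _)

/-- the weight of the conductor `q` in `c_r(n+k)` -/
noncomputable def Wq (k : ℤ) (r q : ℕ) : ℝ :=
  ∑ d ∈ r.divisors.filter (fun d => q ∣ d), (if IsCoprime k (d : ℤ) then (d : ℝ) / d.totient else 0) * (ArithmeticFunction.moebius (r / d) : ℝ)

lemma Wq_bound {k : ℤ} (hk : k ≠ 0) {r q : ℕ} (hr : Squarefree r) (hq : q ∣ r) :
    |Wq k r q| ≤ (q : ℝ) / q.totient * (|(k : ℝ)| / (r / q).totient) := by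
  obtain ⟨s, rfl⟩ := hq
  have hr0 : q * s ≠ 0 := hr.ne_zero
  have hq0 : 0 < q := Nat.pos_of_ne_zero (left_ne_zero_of_mul hr0)
  have hs0 : 0 < s := Nat.pos_of_ne_zero (right_ne_zero_of_mul hr0)
  have hc : q.Coprime s := Nat.coprime_of_squarefree_mul hr
  rw [Nat.mul_div_cancel_left s hq0]
  have h1 : Wq k (q * s) q = (if IsCoprime k (q : ℤ) then (q : ℝ) / q.totient else 0) * fs k s := by
    unfold Wq fs
    rw [mul_sum]
    symm
    refine sum_bij (fun g _ => q * g) (fun g hg => ?_) (fun g _ g' _ h => ?_) (fun d hd => ?_) fun g hg => ?_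
    · rw [mem_filter, Nat.mem_divisors]
      exact ⟨⟨Nat.mul_dvd_mul_left q (Nat.dvd_of_mem_divisors hg), hr0⟩, Dvd.intro g rfl⟩
    · exact Nat.eq_of_mul_eq_mul_left hq0 h
    · rw [mem_filter, Nat.mem_divisors] at hd
      obtain ⟨g, rfl⟩ := hd.2
      exact ⟨g, Nat.mem_divisors.2 ⟨Nat.dvd_of_mul_dvd_mul_left hq0 hd.1.1, hs0.ne'⟩, rfl⟩
    · have hgs : g ∣ s := Nat.dvd_of_mem_divisors hg
      have hcg : q.Coprime g := Nat.Coprime.coprime_dvd_right hgs hc
      have hdiv : q * s / (q * g) = s / g := Nat.mul_div_mul_left s g hq0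
      have hiff : IsCoprime k ((q * g : ℕ) : ℤ) ↔ IsCoprime k (q : ℤ) ∧ IsCoprime k (g : ℤ) := by
        push_cast
        exact IsCoprime.mul_right_iff
      rw [hdiv]
      by_cases h1 : IsCoprime k (q : ℤ)
      · by_cases h2 : IsCoprime k (g : ℤ)
        · rw [if_pos (hiff.2 ⟨h1, h2⟩), if_pos h1, if_pos h2, Nat.totient_mul hcg]
          push_cast
          rw [mul_div_mul_comm]
          ring
        · rw [if_neg (fun h => h2 (hiff.1 h).2), if_neg h2]
          ring
      · rw [if_neg (fun h => h1 (hiff.1 h).1), if_neg h1]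
        ring
  rw [h1, abs_mul]
  have h2 : |(if IsCoprime k (q : ℤ) then (q : ℝ) / q.totient else 0)| ≤ (q : ℝ) / q.totient := by
    split_ifs
    · rw [abs_of_nonneg (by positivity)]
    · rw [abs_zero]
      positivity
  exact mul_le_mul h2 (fs_bound hk (Squarefree.of_mul_right hr)) (abs_nonneg _) (by positivity)

end Pool.Agent.Helper3.AP
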