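import Pool.Agent.Helper3.AP.BlsA

/-!
# A' BLS1, part 2: expansion of `∑ α β c_r(m l + k)` in characters modulo `r`
-/

set_option autoImplicit false

namespace Pool.Agent.Helper3.AP

open Finset
open Pool.Agent.AP (cr)

open Classical in
/-- the character modulo `d` inducing `χ` -/
noncomputable def gd (d : ℕ) {r : ℕ} (χ : DirichletCharacter ℂ r) : DirichletCharacter ℂ d :=
  if h : χ.conductor ∣ d then DirichletCharacter.changeLevel h χ.primitiveCharacter else 1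

lemma cl_gd {d r : ℕ} (hd : d ∣ r) {χ : DirichletCharacter ℂ r} (h : χ.conductor ∣ d) :
    DirichletCharacter.changeLevel hd (gd d χ) = χ := by
  unfold gd
  rw [dif_pos h, ← DirichletCharacter.changeLevel_trans]
  exact χ.changeLevel_primitiveCharacter

lemma lift_sum {d r : ℕ} (hr : r ≠ 0) (hd : d ∣ r) (F : DirichletCharacter ℂ d → ℂ) :
    ∑ ψ : DirichletCharacter ℂ d, F ψ =
      ∑ χ ∈ (Finset.univ : Finset (DirichletCharacter ℂ r)).filter (fun χ => χ.conductor ∣ d), F (gd d χ) := by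
  have : NeZero r := ⟨hr⟩
  have hd0 : d ≠ 0 := fun h => hr (by rw [h, zero_dvd_iff] at hd; exact hd)
  have : NeZero d := ⟨hd0⟩
  symm
  refine sum_bij (fun χ _ => gd d χ) (fun χ _ => mem_univ _) (fun χ hχ χ' hχ' h => ?_) (fun ψ _ => ?_) fun _ _ => rfl
  · rw [mem_filter] at hχ hχ'
    rw [← cl_gd hd hχ.2, h, cl_gd hd hχ'.2]
  · have h1 : (DirichletCharacter.changeLevel hd ψ).conductor ∣ d := by
      rw [DirichletCharacter.conductor_changeLevel]
      exact ψ.conductor_dvd_level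
    refine ⟨DirichletCharacter.changeLevel hd ψ, mem_filter.2 ⟨mem_univ _, h1⟩, ?_⟩
    exact DirichletCharacter.changeLevel_injective hd (cl_gd hd h1)

/-- the value of the primitive character -/
noncomputable def zc {r : ℕ} (k : ℤ) (χ : DirichletCharacter ℂ r) : ℂ := (χ.primitiveCharacter ((-k : ℤ) : ZMod χ.conductor))⁻¹

lemma zc_norm {r : ℕ} (hr : r ≠ 0) (k : ℤ) (χ : DirichletCharacter ℂ r) : ‖zc k χ‖ ≤ 1 := by
  unfold zc
  have hf0 : χ.conductor ≠ 0 := fun h => by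
    have := χ.conductor_dvd_level
    rw [h, zero_dvd_iff] at this
    exact hr this
  have : NeZero χ.conductor := ⟨hf0⟩
  by_cases hu : IsUnit ((-k : ℤ) : ZMod χ.conductor)
  · have := DirichletCharacter.unit_norm_eq_one χ.primitiveCharacter hu.unit
    rw [IsUnit.unit_spec] at this
    rw [norm_inv, this, inv_one]
  · rw [MulChar.map_nonunit _ hu, inv_zero, norm_zero]
    norm_num

lemma gd_val {d r : ℕ} {k : ℤ} (hk : IsCoprime k (d : ℤ)) {χ : DirichletCharacter ℂ r} (h : χ.conductor ∣ d) :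
    (gd d χ ((-k : ℤ) : ZMod d))⁻¹ = zc k χ := by
  unfold gd zc
  rw [dif_pos h, cl_apply, if_pos hk.neg_left]

lemma cl_sum' {d r : ℕ} (hd : d ∣ r) (ψ : DirichletCharacter ℂ d) (s : Finset ℕ) (a : ℕ → ℂ) :
    ∑ m ∈ s, a m * (DirichletCharacter.changeLevel hd ψ) m = ∑ m ∈ s, cp r a m * ψ m := by
  refine sum_congr rfl fun m _ => ?_
  have h := cl_apply hd ψ (m : ℤ)
  push_cast at h
  rw [h]
  unfold cp
  by_cases h1 : m.Coprime r
  · rw [if_pos (Nat.isCoprime_iff_coprime.2 h1), if_pos h1]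
  · rw [if_neg (fun h => h1 (Nat.isCoprime_iff_coprime.1 h)), if_neg h1, zero_mul, mul_zero]

lemma dvd_iff_zmod (d : ℕ) (m l : ℕ) (k : ℤ) : (d : ℤ) ∣ (m : ℤ) * l + k ↔ ((-k : ℤ) : ZMod d) = (m : ZMod d) * l := by
  rw [← ZMod.intCast_zmod_eq_zero_iff_dvd]
  push_cast
  constructor
  · intro h
    exact (eq_neg_of_add_eq_zero_left h).symm
  · intro h
    rw [← h]
    ring

/-- one divisor `d` of the modulus `r` -/
lemma exp_div {d r : ℕ} (hr : r ≠ 0) (hd : d ∣ r) (k : ℤ) (s t : Finset ℕ) (a b : ℕ → ℂ) :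
    ∑ m ∈ s, ∑ l ∈ t, cp r a m * cp r b l * (if (d : ℤ) ∣ (m : ℤ) * l + k then 1 else 0) =
      (if IsCoprime k (d : ℤ) then (d.totient : ℂ)⁻¹ else 0) *
        ∑ χ ∈ (Finset.univ : Finset (DirichletCharacter ℂ r)).filter (fun χ => χ.conductor ∣ d),
          zc k χ * ((∑ m ∈ s, a m * χ m) * (∑ l ∈ t, b l * χ l)) := by
  have hd0 : d ≠ 0 := fun h => hr (by rw [h, zero_dvd_iff] at hd; exact hd)
  have : NeZero d := ⟨hd0⟩
  by_cases hk : IsCoprime k (d : ℤ)
  · rw [if_pos hk]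
    have hu : IsUnit ((-k : ℤ) : ZMod d) := (ZMod.coe_int_isUnit_iff_isCoprime _ _).2 hk.neg_left.symm
    have h1 := orth_bil hu s t (cp r a) (cp r b)
    have ht : (d.totient : ℂ) ≠ 0 := by
      exact_mod_cast (Nat.totient_pos.2 (Nat.pos_of_ne_zero hd0)).ne'
    rw [eq_inv_mul_iff_mul_eq₀ ht]
    have h2 : ∀ m l : ℕ, (if (d : ℤ) ∣ (m : ℤ) * l + k then (1 : ℂ) else 0) =
        if ((-k : ℤ) : ZMod d) = (m : ZMod d) * l then 1 else 0 := by
      intro m l
      by_cases h : (d : ℤ) ∣ (m : ℤ) * l + k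
      · rw [if_pos h, if_pos ((dvd_iff_zmod d m l k).1 h)]
      · rw [if_neg h, if_neg (fun h' => h ((dvd_iff_zmod d m l k).2 h'))]
    simp_rw [h2]
    rw [h1, lift_sum hr hd]
    refine sum_congr rfl fun χ hχ => ?_
    rw [mem_filter] at hχ
    rw [gd_val hk hχ.2, ← cl_sum' hd, ← cl_sum' hd, cl_gd hd hχ.2]
  · rw [if_neg hk, zero_mul]
    refine sum_eq_zero fun m _ => sum_eq_zero fun l _ => ?_
    unfold cp
    by_cases h : (d : ℤ) ∣ (m : ℤ) * l + k
    · by_cases hm : m.Coprime r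
      · by_cases hl : l.Coprime r
        · exfalso
          apply hk
          have h1 : IsCoprime ((m : ℤ) * l) (d : ℤ) := by
            refine IsCoprime.mul_left ?_ ?_
            · exact (Nat.isCoprime_iff_coprime.2 hm).of_isCoprime_of_dvd_right (Int.natCast_dvd_natCast.2 hd)
            · exact (Nat.isCoprime_iff_coprime.2 hl).of_isCoprime_of_dvd_right (Int.natCast_dvd_natCast.2 hd)
          obtain ⟨c, hc⟩ := h
          have h2 : k = -((m : ℤ) * l) + d * c := by linarith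
          rw [h2]
          exact (IsCoprime.add_mul_left_left_iff).2 h1.neg_left
        · rw [if_neg hl, mul_zero, zero_mul]
      · rw [if_neg hm, zero_mul, zero_mul]
    · rw [if_neg h, mul_zero]

theorem exp_mod {r : ℕ} (hr : r ≠ 0) (k : ℤ) (s t : Finset ℕ) (a b : ℕ → ℂ) :
    ∑ m ∈ s, ∑ l ∈ t, cp r a m * cp r b l * ((cr r ((m : ℤ) * l + k) : ℝ) : ℂ) =
      ∑ χ : DirichletCharacter ℂ r, zc k χ * ((∑ m ∈ s, a m * χ m) * (∑ l ∈ t, b l * χ l)) * ((Wq k r χ.conductor : ℝ) : ℂ) := by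
  have h1 : ∑ m ∈ s, ∑ l ∈ t, cp r a m * cp r b l * ((cr r ((m : ℤ) * l + k) : ℝ) : ℂ) =
      ∑ d ∈ r.divisors, ((d : ℂ) * (ArithmeticFunction.moebius (r / d) : ℂ)) *
        ∑ m ∈ s, ∑ l ∈ t, cp r a m * cp r b l * (if (d : ℤ) ∣ (m : ℤ) * l + k then 1 else 0) := by
    have e1 : ∀ m l : ℕ, cp r a m * cp r b l * ((cr r ((m : ℤ) * l + k) : ℝ) : ℂ) =
        ∑ d ∈ r.divisors, ((d : ℂ) * (ArithmeticFunction.moebius (r / d) : ℂ)) *
          (cp r a m * cp r b l * (if (d : ℤ) ∣ (m : ℤ) * l + k then 1 else 0)) := by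
      intro m l
      unfold cr
      push_cast
      rw [mul_sum]
      refine sum_congr rfl fun d _ => ?_
      split_ifs
      · push_cast
        ring
      · simp
    simp_rw [e1, mul_sum]
    rw [sum_congr rfl fun m (_ : m ∈ s) => sum_comm, sum_comm]
  rw [h1]
  have h2 : ∀ d ∈ r.divisors, ((d : ℂ) * (ArithmeticFunction.moebius (r / d) : ℂ)) *
        ∑ m ∈ s, ∑ l ∈ t, cp r a m * cp r b l * (if (d : ℤ) ∣ (m : ℤ) * l + k then 1 else 0) =
      ∑ χ : DirichletCharacter ℂ r, zc k χ * ((∑ m ∈ s, a m * χ m) * (∑ l ∈ t, b l * χ l)) *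
        (if χ.conductor ∣ d then (((if IsCoprime k (d : ℤ) then (d : ℝ) / d.totient else 0) *
          (ArithmeticFunction.moebius (r / d) : ℝ) : ℝ) : ℂ) else 0) := by
    intro d hd
    rw [exp_div hr (Nat.dvd_of_mem_divisors hd) k s t a b, sum_filter, mul_sum, mul_sum]
    refine sum_congr rfl fun χ _ => ?_
    split_ifs
    · push_cast
      ring
    · simp
    · simp
    · simp
  rw [sum_congr rfl h2, sum_comm]
  refine sum_congr rfl fun χ _ => ?_
  rw [← mul_sum]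
  congr 1
  unfold Wq
  rw [sum_filter, Complex.ofReal_sum]
  refine sum_congr rfl fun d _ => ?_
  by_cases h : χ.conductor ∣ d
  · rw [if_pos h, if_pos h]
  · rw [if_neg h, if_neg h, Complex.ofReal_zero]

/-- the bound for one modulus -/
theorem mod_bound {r : ℕ} (hr : Squarefree r) {k : ℤ} (hk : k ≠ 0) (s t : Finset ℕ) (a b : ℕ → ℂ) :
    ‖∑ m ∈ s, ∑ l ∈ t, cp r a m * cp r b l * ((cr r ((m : ℤ) * l + k) : ℝ) : ℂ)‖ ≤
      ∑ q ∈ r.divisors, (q : ℝ) / q.totient * (|(k : ℝ)| / (r / q).totient) * G (cp (r / q) a) (cp (r / q) b) s t q := by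
  classical
  have hr0 : r ≠ 0 := hr.ne_zero
  have : NeZero r := ⟨hr0⟩
  rw [exp_mod hr0]
  set Fn : (f : ℕ) → DirichletCharacter ℂ f → ℝ := fun f ψ =>
      |Wq k r f| * (‖∑ n ∈ s, cp (r / f) a n * ψ n‖ * ‖∑ n ∈ t, cp (r / f) b n * ψ n‖) with hFn
  have h4 : ‖∑ χ : DirichletCharacter ℂ r, zc k χ * ((∑ m ∈ s, a m * χ m) * (∑ l ∈ t, b l * χ l)) *
      ((Wq k r χ.conductor : ℝ) : ℂ)‖ ≤ ∑ χ : DirichletCharacter ℂ r, Fn χ.conductor χ.primitiveCharacter := by
    refine (norm_sum_le _ _).trans (sum_le_sum fun χ _ => ?_)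
    rw [norm_mul, norm_mul, norm_mul, Complex.norm_real, Real.norm_eq_abs]
    simp only [hFn]
    rw [← prim_sum, ← prim_sum, mul_comm (|Wq k r χ.conductor|)]
    refine mul_le_mul_of_nonneg_right ?_ (abs_nonneg _)
    exact mul_le_of_le_one_left (by positivity) (zc_norm hr0 k χ)
  refine h4.trans ((regroup Fn fun f ψ => ?_).trans (sum_le_sum fun q hq => ?_))
  · simp only [hFn]
    positivity
  · have h5 := Wq_bound hk hr (Nat.dvd_of_mem_divisors hq)
    simp only [hFn]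
    rw [← mul_sum]
    exact mul_le_mul_of_nonneg_right h5 (G_nonneg _ _ _ _ _)

end Pool.Agent.Helper3.AP
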