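import Pool.Agent.Helper3.AP.BlsB
import Pool.Agent.Helper82.AP.ALG

/-!
# A' BLS1, part 3: splitting by `h = (m l, r)`
-/

set_option autoImplicit false

namespace Pool.Agent.Helper3.AP

open Finset
open Pool.Agent.AP (cr)

/-- the coefficients on the `m` with `(m, h) = h₁` -/
def ga (h h1 : ℕ) (a : ℕ → ℂ) (m : ℕ) : ℂ := if m.gcd h = h1 then a m else 0

/-- the coefficients on the multiples of `e` -/
def gb (e : ℕ) (b : ℕ → ℂ) (l : ℕ) : ℂ := if e ∣ l then b l else 0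

lemma ga_norm (h h1 : ℕ) {a : ℕ → ℂ} (ha : ∀ n, ‖a n‖ ≤ 1) (n : ℕ) : ‖ga h h1 a n‖ ≤ 1 := by
  unfold ga
  split_ifs
  · exact ha n
  · simp

lemma gb_norm (e : ℕ) {b : ℕ → ℂ} (hb : ∀ n, ‖b n‖ ≤ 1) (n : ℕ) : ‖gb e b n‖ ≤ 1 := by
  unfold gb
  split_ifs
  · exact hb n
  · simp

lemma cr_shift {h : ℕ} {n : ℤ} (hn : (h : ℤ) ∣ n) (k : ℤ) : cr h (n + k) = cr h k := by
  unfold cr
  refine sum_congr rfl fun d hd => ?_
  have h1 : (d : ℤ) ∣ n := (Int.natCast_dvd_natCast.2 (Nat.dvd_of_mem_divisors hd)).trans hn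
  have h2 : (d : ℤ) ∣ n + k ↔ (d : ℤ) ∣ k := dvd_add_right h1
  by_cases h3 : (d : ℤ) ∣ k
  · rw [if_pos (h2.2 h3), if_pos h3]
  · rw [if_neg (fun h => h3 (h2.1 h)), if_neg h3]

lemma div_gcd_dvd {h m l : ℕ} (hh : 0 < h) (hd : h ∣ m * l) : h / m.gcd h ∣ l := by
  have hg : 0 < m.gcd h := Nat.gcd_pos_of_pos_right _ hh
  have h1 : (h / m.gcd h).Coprime (m / m.gcd h) := (Nat.coprime_div_gcd_div_gcd hg).symm
  refine h1.dvd_of_dvd_mul_left ?_
  obtain ⟨c, hc⟩ := hd
  refine ⟨c, ?_⟩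
  have e1 : m.gcd h * (m / m.gcd h) = m := Nat.mul_div_cancel' (Nat.gcd_dvd_left _ _)
  have e2 : m.gcd h * (h / m.gcd h) = h := Nat.mul_div_cancel' (Nat.gcd_dvd_right _ _)
  refine Nat.eq_of_mul_eq_mul_left hg ?_
  calc m.gcd h * (m / m.gcd h * l) = m.gcd h * (m / m.gcd h) * l := by ring
    _ = m * l := by rw [e1]
    _ = h * c := hc
    _ = m.gcd h * (h / m.gcd h) * c := by rw [e2]
    _ = _ := by ring

lemma hsplit {r : ℕ} (hr : Squarefree r) (k : ℤ) (a b : ℕ → ℂ) (m l : ℕ) :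
    a m * b l * ((cr r ((m : ℤ) * l + k) : ℝ) : ℂ) = ∑ h ∈ r.divisors, ∑ h1 ∈ h.divisors, ((cr h k : ℝ) : ℂ) *
      (cp (r / h) (ga h h1 a) m * cp (r / h) (gb (h / h1) b) l * ((cr (r / h) ((m : ℤ) * l + k) : ℝ) : ℂ)) := by
  have hr0 : 0 < r := Nat.pos_of_ne_zero hr.ne_zero
  set h0 := (m * l).gcd r with hh0
  have h0r : h0 ∣ r := Nat.gcd_dvd_right _ _
  have h0pos : 0 < h0 := Nat.gcd_pos_of_pos_right _ hr0
  have e0 : h0 * (r / h0) = r := Nat.mul_div_cancel' h0r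
  have hc0 : h0.Coprime (r / h0) := by
    rw [← e0] at hr
    exact Nat.coprime_of_squarefree_mul hr
  have hcop : (m * l).Coprime (r / h0) := by
    have h1 : (m * l).gcd (h0 * (r / h0)) = (m * l).gcd h0 * (m * l).gcd (r / h0) := Nat.Coprime.gcd_mul _ hc0
    rw [e0, ← hh0] at h1
    have h2 : (m * l).gcd h0 = h0 := Nat.gcd_eq_right (Nat.gcd_dvd_left _ _)
    rw [h2] at h1
    exact Nat.eq_of_mul_eq_mul_left h0pos (by rw [mul_one]; exact h1.symm)
  rw [sum_eq_single_of_mem h0 (Nat.mem_divisors.2 ⟨h0r, hr0.ne'⟩)]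
  · rw [sum_eq_single_of_mem (m.gcd h0) (Nat.mem_divisors.2 ⟨Nat.gcd_dvd_right _ _, h0pos.ne'⟩)]
    · have h1 : cp (r / h0) (ga h0 (m.gcd h0) a) m = a m := by
        unfold cp ga
        rw [if_pos (Nat.Coprime.coprime_mul_right hcop), if_pos rfl]
      have h2 : cp (r / h0) (gb (h0 / m.gcd h0) b) l = b l := by
        unfold cp gb
        rw [if_pos (Nat.Coprime.coprime_mul_left hcop), if_pos (div_gcd_dvd h0pos (Nat.gcd_dvd_left _ _))]
      have h3 : cr r ((m : ℤ) * l + k) = cr h0 k * cr (r / h0) ((m : ℤ) * l + k) := by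
        have h4 := Pool.Agent.AP.cr_coprime_mul hc0 ((m : ℤ) * l + k)
        rw [e0] at h4
        rw [h4, cr_shift]
        have : ((h0 : ℕ) : ℤ) ∣ ((m * l : ℕ) : ℤ) := Int.natCast_dvd_natCast.2 (Nat.gcd_dvd_left _ _)
        push_cast at this
        exact this
      rw [h1, h2, h3]
      push_cast
      ring
    · intro h1 _ hne
      have h2 : ga h0 h1 a m = 0 := by
        unfold ga
        rw [if_neg (fun h => hne h.symm)]
      have : cp (r / h0) (ga h0 h1 a) m = 0 := by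
        unfold cp
        rw [h2, ite_self]
      rw [this]
      ring
  · intro h hh hne
    have hhr : h ∣ r := Nat.dvd_of_mem_divisors hh
    have hpos : 0 < h := Nat.pos_of_mem_divisors hh
    have e1 : h * (r / h) = r := Nat.mul_div_cancel' hhr
    have hc1 : h.Coprime (r / h) := by
      rw [← e1] at hr
      exact Nat.coprime_of_squarefree_mul hr
    refine sum_eq_zero fun h1 _ => ?_
    by_cases c1 : m.Coprime (r / h)
    · by_cases c2 : l.Coprime (r / h)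
      · by_cases c3 : m.gcd h = h1
        · by_cases c4 : h / h1 ∣ l
          · exfalso
            apply hne
            have h5 : h ∣ m * l := by
              rw [← c3] at c4
              have h6 : m.gcd h * (h / m.gcd h) = h := Nat.mul_div_cancel' (Nat.gcd_dvd_right _ _)
              rw [← h6]
              exact Nat.mul_dvd_mul (Nat.gcd_dvd_left _ _) c4
            have h7 : (m * l).gcd (h * (r / h)) = (m * l).gcd h * (m * l).gcd (r / h) := Nat.Coprime.gcd_mul _ hc1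
            have h8 : (m * l).gcd (r / h) = 1 := Nat.Coprime.mul_left c1 c2
            rw [e1, ← hh0, h8, mul_one, Nat.gcd_eq_right h5] at h7
            exact h7.symm
          · have : cp (r / h) (gb (h / h1) b) l = 0 := by
              unfold cp gb
              rw [if_neg c4]
              simp
            rw [this]
            ring
        · have : cp (r / h) (ga h h1 a) m = 0 := by
            unfold cp ga
            rw [if_neg c3]
            simp
          rw [this]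
          ring
      · have : cp (r / h) (gb (h / h1) b) l = 0 := by
          unfold cp
          rw [if_neg c2]
        rw [this]
        ring
    · have : cp (r / h) (ga h h1 a) m = 0 := by
        unfold cp
        rw [if_neg c1]
      rw [this]
      ring

lemma cr_le_sum (h : ℕ) (k : ℤ) : |cr h k| ≤ ∑ d ∈ h.divisors.filter (fun d : ℕ => (d : ℤ) ∣ k), (d : ℝ) := by
  unfold cr
  refine (abs_sum_le_sum_abs _ _).trans ?_
  rw [sum_filter]
  refine sum_le_sum fun d _ => ?_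
  split_ifs
  · rw [abs_mul, abs_of_nonneg (Nat.cast_nonneg d)]
    have h1 : |((ArithmeticFunction.moebius (h / d) : ℤ) : ℝ)| ≤ 1 := by
      have := ArithmeticFunction.abs_moebius_le_one (n := h / d)
      exact_mod_cast this
    nlinarith [Nat.cast_nonneg (α := ℝ) d]
  · simp

lemma cr_le (h : ℕ) {k : ℤ} (hk : k ≠ 0) : |cr h k| ≤ |(k : ℝ)| ^ 2 := by
  have h0 : (0 : ℝ) ≤ |(k : ℝ)| := abs_nonneg _
  have hka : ((k.natAbs : ℕ) : ℝ) = |(k : ℝ)| := by
    rw [Nat.cast_natAbs]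
    push_cast
    rfl
  calc |cr h k| ≤ ∑ d ∈ h.divisors.filter (fun d : ℕ => (d : ℤ) ∣ k), (d : ℝ) := cr_le_sum h k
    _ ≤ ∑ d ∈ k.natAbs.divisors, (d : ℝ) := by
        refine sum_le_sum_of_subset_of_nonneg ?_ fun _ _ _ => Nat.cast_nonneg _
        intro d hd
        rw [mem_filter] at hd
        exact Nat.mem_divisors.2 ⟨Int.natCast_dvd.1 hd.2, Int.natAbs_ne_zero.2 hk⟩
    _ ≤ ∑ d ∈ k.natAbs.divisors, |(k : ℝ)| := by
        refine sum_le_sum fun d hd => ?_
        rw [← hka]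
        exact_mod_cast Nat.divisor_le hd
    _ = (k.natAbs.divisors.card : ℝ) * |(k : ℝ)| := by rw [sum_const, nsmul_eq_mul]
    _ ≤ |(k : ℝ)| * |(k : ℝ)| := by
        refine mul_le_mul_of_nonneg_right ?_ h0
        rw [← hka]
        exact_mod_cast Nat.card_divisors_le_self _
    _ = |(k : ℝ)| ^ 2 := (sq _).symm

/-- switching a sum over `r` and its divisors -/
lemma sw (A B : Finset ℕ) (C : ℕ → Finset ℕ) (P : ℕ → ℕ → Prop) [∀ r, DecidablePred (P r)] (v : ℕ → ℕ → ℝ)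
    (hv : ∀ d ∈ B, ∀ g ∈ C d, 0 ≤ v d g) (h : ∀ r ∈ A, ∀ d, d ∣ r → P r d → d ∈ B ∧ r / d ∈ C d) :
    ∑ r ∈ A, ∑ d ∈ r.divisors.filter (P r), v d (r / d) ≤ ∑ d ∈ B, ∑ g ∈ C d, v d g := by
  rw [sum_sigma', sum_sigma']
  have e1 : ∑ x ∈ A.sigma fun r => r.divisors.filter (P r), v x.2 (x.1 / x.2) =
      ∑ y ∈ (A.sigma fun r => r.divisors.filter (P r)).image (fun x => (⟨x.2, x.1 / x.2⟩ : Σ _ : ℕ, ℕ)), v y.1 y.2 := by
    rw [sum_image]
    rintro ⟨r, d⟩ hx ⟨r', d'⟩ hx' he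
    rw [mem_coe, mem_sigma, mem_filter] at hx hx'
    simp only [Sigma.mk.injEq, heq_eq_eq] at he
    obtain ⟨e1, e2⟩ := he
    subst e1
    have h1 : d ∣ r := Nat.dvd_of_mem_divisors hx.2.1
    have h2 : d ∣ r' := Nat.dvd_of_mem_divisors hx'.2.1
    have : r = r' := by
      rw [← Nat.mul_div_cancel' h1, ← Nat.mul_div_cancel' h2, e2]
    subst this
    rfl
  rw [e1]
  refine sum_le_sum_of_subset_of_nonneg ?_ fun y hy _ => ?_
  · intro y hy
    obtain ⟨⟨r, d⟩, hx, rfl⟩ := mem_image.1 hy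
    rw [mem_sigma, mem_filter] at hx
    rw [mem_sigma]
    exact h r hx.1 d (Nat.dvd_of_mem_divisors hx.2.1) hx.2.2
  · rw [mem_sigma] at hy
    exact hv y.1 hy.1 y.2 hy.2

/-- `d / φ(d) ≤ τ(d)` -/
lemma div_tot_le {d : ℕ} (hd : d ≠ 0) : (d : ℝ) / d.totient ≤ d.divisors.card := by
  have ht : (0 : ℝ) < d.totient := by exact_mod_cast Nat.totient_pos.2 (Nat.pos_of_ne_zero hd)
  rw [div_le_iff₀ ht]
  exact_mod_cast le_tot_mul d

lemma tot_pos' {d : ℕ} (hd : d ≠ 0) : (0 : ℝ) < d.totient := by exact_mod_cast Nat.totient_pos.2 (Nat.pos_of_ne_zero hd)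

/-- the trivial bound for the sum over the moduli -/
lemma cr_sum {N : ℤ} (hN : N ≠ 0) {D : ℝ} (hD : ((N.natAbs.divisors.card : ℕ) : ℝ) ≤ D) (R : ℕ) :
    ∑ r ∈ Icc 1 R, (1 : ℝ) / r.totient * |cr r N| ≤ D ^ 2 * (1 + Real.log R) ^ 2 := by
  have hD0 : 0 ≤ D := le_trans (Nat.cast_nonneg _) hD
  have hNa : N.natAbs ≠ 0 := Int.natAbs_ne_zero.2 hN
  have h1 : ∑ r ∈ Icc 1 R, (1 : ℝ) / r.totient * |cr r N| ≤
      ∑ r ∈ Icc 1 R, ∑ d ∈ r.divisors.filter (fun d : ℕ => (d : ℤ) ∣ N), (fun (d g : ℕ) => D * (1 / (g.totient : ℝ))) d (r / d) := by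
    refine sum_le_sum fun r hr => ?_
    rw [mem_Icc] at hr
    refine (mul_le_mul_of_nonneg_left (cr_le_sum r N) (by positivity)).trans ?_
    rw [mul_sum]
    refine sum_le_sum fun d hd => ?_
    rw [mem_filter, Nat.mem_divisors] at hd
    obtain ⟨⟨hdr, hr0⟩, hdN⟩ := hd
    have hd0 : d ≠ 0 := fun h => hr0 (by rw [h, zero_dvd_iff] at hdr; exact hdr)
    have hg0 : r / d ≠ 0 := (Nat.div_pos (Nat.le_of_dvd (by omega) hdr) (Nat.pos_of_ne_zero hd0)).ne'
    have t1 := tot_pos' hd0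
    have t2 := tot_pos' hg0
    have t3 := tot_pos' hr0
    have h2 : (d.totient : ℝ) * ((r / d).totient : ℝ) ≤ (r.totient : ℝ) := by
      have h3 := Nat.totient_super_multiplicative d (r / d)
      rw [Nat.mul_div_cancel' hdr] at h3
      exact_mod_cast h3
    have h4 : (d : ℝ) / d.totient ≤ D := by
      refine (div_tot_le hd0).trans (le_trans ?_ hD)
      exact_mod_cast card_le_card (Nat.divisors_subset_of_dvd hNa (Int.natCast_dvd.1 hdN))
    calc (1 : ℝ) / r.totient * d ≤ 1 / (d.totient * ((r / d).totient : ℝ)) * d :=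
          mul_le_mul_of_nonneg_right (one_div_le_one_div_of_le (mul_pos t1 t2) h2) (Nat.cast_nonneg _)
      _ = (d : ℝ) / d.totient * (1 / ((r / d).totient : ℝ)) := by
          field_simp
      _ ≤ D * (1 / ((r / d).totient : ℝ)) := mul_le_mul_of_nonneg_right h4 (by positivity)
  refine h1.trans ?_
  refine (sw (Icc 1 R) N.natAbs.divisors (fun _ => Icc 1 R) (fun _ d => (d : ℤ) ∣ N) (fun (_ g : ℕ) => D * (1 / (g.totient : ℝ)))
    (fun d _ g _ => by positivity) fun r hr d hd hP => ?_).trans ?_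
  · rw [mem_Icc] at hr
    have hd0 : 0 < d := Nat.pos_of_dvd_of_pos hd (by omega)
    refine ⟨Nat.mem_divisors.2 ⟨Int.natCast_dvd.1 hP, hNa⟩, mem_Icc.2 ⟨Nat.div_pos (Nat.le_of_dvd (by omega) hd) hd0, ?_⟩⟩
    exact (Nat.div_le_self _ _).trans hr.2
  · rcases Nat.eq_zero_or_pos R with hR | hR
    · subst hR
      rw [Icc_eq_empty (by norm_num : ¬ (1 : ℕ) ≤ 0)]
      simp only [sum_empty, sum_const_zero]
      positivity
    rw [sum_const, nsmul_eq_mul]
    rw [← mul_sum]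
    have h5 := sum_inv_tot hR
    have h6 : (0 : ℝ) ≤ ∑ g ∈ Icc 1 R, 1 / (g.totient : ℝ) := sum_nonneg fun _ _ => by positivity
    calc (N.natAbs.divisors.card : ℝ) * (D * ∑ g ∈ Icc 1 R, 1 / (g.totient : ℝ))
        ≤ D * (D * (1 + Real.log R) ^ 2) :=
          mul_le_mul hD (mul_le_mul_of_nonneg_left h5 hD0) (by positivity) hD0
      _ = _ := by ring

end Pool.Agent.Helper3.AP
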