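import Pool.Agent.Helper3.AP.BlsC

/-!
# A' BLS1, part 4: the bound for fixed coefficients, moduli `U < r ≤ R`
-/

set_option autoImplicit false

namespace Pool.Agent.Helper3.AP

open Finset
open Pool.Agent.AP (cr)

lemma G_triv {q : ℕ} (hq : q ≠ 0) (M N M' N' : ℕ) {a b : ℕ → ℂ} (ha : ∀ n, ‖a n‖ ≤ 1) (hb : ∀ n, ‖b n‖ ≤ 1) :
    G a b (Ioc M (M + N)) (Ioc M' (M' + N')) q ≤ q.totient * (N * N') := by
  classical
  have : NeZero q := ⟨hq⟩
  have key : ∀ (K R : ℕ) (g : ℕ → ℂ) (χ : DirichletCharacter ℂ q), (∀ n, ‖g n‖ ≤ 1) → ‖∑ n ∈ Ioc K (K + R), g n * χ n‖ ≤ R := by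
    intro K R g χ hg
    refine (norm_sum_le _ _).trans ?_
    calc ∑ n ∈ Ioc K (K + R), ‖g n * χ n‖ ≤ ∑ n ∈ Ioc K (K + R), (1 : ℝ) := by
          refine sum_le_sum fun n _ => ?_
          rw [norm_mul]
          have h1 := χ.norm_le_one (n : ZMod q)
          have := mul_le_mul (hg n) h1 (norm_nonneg _) zero_le_one
          linarith
      _ = R := by simp
  unfold G
  calc ∑ χ ∈ (Finset.univ : Finset (DirichletCharacter ℂ q)).filter (fun χ => χ.IsPrimitive),
        ‖∑ n ∈ Ioc M (M + N), a n * χ n‖ * ‖∑ n ∈ Ioc M' (M' + N'), b n * χ n‖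
      ≤ ∑ χ ∈ (Finset.univ : Finset (DirichletCharacter ℂ q)).filter (fun χ => χ.IsPrimitive), ((N : ℝ) * N') :=
        sum_le_sum fun χ _ => mul_le_mul (key M N a χ ha) (key M' N' b χ hb) (norm_nonneg _) (Nat.cast_nonneg _)
    _ ≤ ∑ χ : DirichletCharacter ℂ q, ((N : ℝ) * N') :=
        sum_le_sum_of_subset_of_nonneg (filter_subset _ _) fun _ _ _ => by positivity
    _ = q.totient * (N * N') := by
        rw [sum_const, nsmul_eq_mul]
        congr 1
        rw [card_univ, ← Nat.card_eq_fintype_card, DirichletCharacter.card_eq_totient_of_hasEnoughRootsOfUnity]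

theorem fixed_bound {M0 M L0 L R Q0 : ℕ} (hQ : 1 ≤ Q0) (hR : 1 ≤ R) {k : ℤ} (hk : k ≠ 0) {U D : ℝ} (hU : 0 < U)
    (hD : ∀ n : ℕ, 1 ≤ n → n ≤ R → ((n.divisors.card : ℕ) : ℝ) ≤ D) (A : Finset ℕ)
    (hA : ∀ r ∈ A, Squarefree r ∧ r ≤ R ∧ U < r) {a b : ℕ → ℂ} (ha : ∀ n, ‖a n‖ ≤ 1) (hb : ∀ n, ‖b n‖ ≤ 1) :
    ∑ r ∈ A, (1 : ℝ) / r.totient * ‖∑ m ∈ Ioc M0 (M0 + M), ∑ l ∈ Ioc L0 (L0 + L),
        cp r a m * cp r b l * ((cr r ((m : ℤ) * l + k) : ℝ) : ℂ)‖ ≤
      |(k : ℝ)| * (M * L * D ^ 2 * (Q0 ^ 2 / U) * (1 + Real.log R) ^ 2 +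
        32 * D * (1 + Real.log R) ^ 3 * (Real.sqrt M * Real.sqrt L) *
          (R + Real.sqrt M + Real.sqrt L + Real.sqrt M * Real.sqrt L / Q0)) := by
  have hlog : 0 ≤ Real.log R := Real.log_nonneg (by exact_mod_cast hR)
  have hD1 : 1 ≤ D := by
    have := hD 1 le_rfl hR
    simpa using this
  have hQ0 : (0 : ℝ) < Q0 := by exact_mod_cast hQ
  set s := Ioc M0 (M0 + M) with hs
  set t := Ioc L0 (L0 + L) with ht
  have hk0 : 0 ≤ |(k : ℝ)| := abs_nonneg _
  -- the two kinds of terms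
  set v1 : ℕ → ℕ → ℝ := fun q g => |(k : ℝ)| * (M * L * D ^ 2 * (Q0 / U)) * (1 / (g.totient : ℝ)) with hv1
  set v2 : ℕ → ℕ → ℝ := fun g q => |(k : ℝ)| * D * (1 / (g.totient : ℝ)) * (1 / (q.totient : ℝ) * G (cp g a) (cp g b) s t q) with hv2
  have step : ∑ r ∈ A, (1 : ℝ) / r.totient * ‖∑ m ∈ s, ∑ l ∈ t, cp r a m * cp r b l * ((cr r ((m : ℤ) * l + k) : ℝ) : ℂ)‖ ≤
      ∑ r ∈ A, ∑ q ∈ r.divisors.filter (fun q => q ≤ Q0), v1 q (r / q) +
      ∑ r ∈ A, ∑ g ∈ r.divisors.filter (fun g => Q0 < r / g), v2 g (r / g) := by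
    rw [← sum_add_distrib]
    refine sum_le_sum fun r hr => ?_
    obtain ⟨hsq, hrR, hrU⟩ := hA r hr
    have hr0 : r ≠ 0 := hsq.ne_zero
    refine (mul_le_mul_of_nonneg_left (mod_bound hsq hk s t a b) (by positivity)).trans ?_
    rw [mul_sum]
    have e1 : ∑ g ∈ r.divisors.filter (fun g => Q0 < r / g), v2 g (r / g) =
        ∑ q ∈ r.divisors.filter (fun q => ¬ q ≤ Q0), v2 (r / q) q := by
      refine sum_bij (fun g _ => r / g) (fun g hg => ?_) (fun g hg g' hg' h => ?_) (fun q hq => ?_) fun g hg => ?_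
      · rw [mem_filter, Nat.mem_divisors] at hg ⊢
        exact ⟨⟨Nat.div_dvd_of_dvd hg.1.1, hr0⟩, by omega⟩
      · rw [mem_filter, Nat.mem_divisors] at hg hg'
        have h1 := Nat.div_div_self hg.1.1 hr0
        have h2 := Nat.div_div_self hg'.1.1 hr0
        rw [← h1, ← h2, h]
      · rw [mem_filter, Nat.mem_divisors] at hq
        refine ⟨r / q, ?_, Nat.div_div_self hq.1.1 hr0⟩
        rw [mem_filter, Nat.mem_divisors, Nat.div_div_self hq.1.1 hr0]
        exact ⟨⟨Nat.div_dvd_of_dvd hq.1.1, hr0⟩, by omega⟩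
      · rw [mem_filter, Nat.mem_divisors] at hg
        rw [Nat.div_div_self hg.1.1 hr0]
    rw [e1, ← sum_filter_add_sum_filter_not r.divisors (fun q => q ≤ Q0)]
    refine add_le_add (sum_le_sum fun q hq => ?_) (sum_le_sum fun q hq => ?_)
    · rw [mem_filter, Nat.mem_divisors] at hq
      obtain ⟨⟨hqr, _⟩, hqQ⟩ := hq
      have hq0 : q ≠ 0 := fun h => hr0 (by rw [h, zero_dvd_iff] at hqr; exact hqr)
      have hg0 : r / q ≠ 0 := (Nat.div_pos (Nat.le_of_dvd (by omega) hqr) (Nat.pos_of_ne_zero hq0)).ne'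
      have t1 := tot_pos' hq0
      have t2 := tot_pos' hg0
      have t3 := tot_pos' hr0
      have h2 : (q.totient : ℝ) * ((r / q).totient : ℝ) ≤ (r.totient : ℝ) := by
        have h3 := Nat.totient_super_multiplicative q (r / q)
        rw [Nat.mul_div_cancel' hqr] at h3
        exact_mod_cast h3
      have h4 : (q : ℝ) / q.totient ≤ D :=
        (div_tot_le hq0).trans (hD q (Nat.pos_of_ne_zero hq0) ((Nat.le_of_dvd (by omega) hqr).trans hrR))
      have h5 : 1 / ((r / q).totient : ℝ) ≤ D * (Q0 / U) := by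
        have h6 : ((r / q : ℕ) : ℝ) / (r / q).totient ≤ D :=
          (div_tot_le hg0).trans (hD _ (Nat.pos_of_ne_zero hg0) ((Nat.div_le_self _ _).trans hrR))
        have h7 : U / Q0 < ((r / q : ℕ) : ℝ) := by
          have h8 : (r : ℝ) = q * ((r / q : ℕ) : ℝ) := by
            rw [← Nat.cast_mul, Nat.mul_div_cancel' hqr]
          rw [div_lt_iff₀ hQ0]
          have h9 : (q : ℝ) ≤ Q0 := by exact_mod_cast hqQ
          have h10 : (0 : ℝ) ≤ ((r / q : ℕ) : ℝ) := Nat.cast_nonneg _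
          nlinarith
        have h8 : 0 < U / Q0 := by positivity
        have h9 : (0 : ℝ) < ((r / q : ℕ) : ℝ) := h8.trans h7
        rw [div_le_iff₀ t2] at h6
        rw [div_le_iff₀ t2]
        have h10 : U / Q0 * (D * (Q0 / U)) = D := by
          field_simp
        have h11 : U / Q0 ≤ D * ((r / q).totient : ℝ) := h7.le.trans h6
        have h12 : 0 < Q0 / U := by positivity
        have h13 := mul_le_mul_of_nonneg_left h11 h12.le
        have h14 : Q0 / U * (U / Q0) = 1 := by field_simp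
        calc (1 : ℝ) = Q0 / U * (U / Q0) := h14.symm
          _ ≤ Q0 / U * (D * ((r / q).totient : ℝ)) := h13
          _ = D * (Q0 / U) * ((r / q).totient : ℝ) := by ring
      have h6 := G_triv hq0 M0 M L0 L (cp_norm (r / q) ha) (cp_norm (r / q) hb)
      rw [← hs, ← ht] at h6
      have hML : (0 : ℝ) ≤ M * L := by positivity
      simp only [hv1]
      calc (1 : ℝ) / r.totient * ((q : ℝ) / q.totient * (|(k : ℝ)| / (r / q).totient) * G (cp (r / q) a) (cp (r / q) b) s t q)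
          ≤ 1 / (q.totient * ((r / q).totient : ℝ)) *
            ((q : ℝ) / q.totient * (|(k : ℝ)| / (r / q).totient) * (q.totient * (M * L))) := by
            refine mul_le_mul (one_div_le_one_div_of_le (mul_pos t1 t2) h2) (mul_le_mul_of_nonneg_left h6 (by positivity))
              (mul_nonneg (by positivity) (G_nonneg _ _ _ _ _)) (by positivity)
        _ = (|(k : ℝ)| * (M * L) * (1 / ((r / q).totient : ℝ))) * ((q : ℝ) / q.totient * (1 / ((r / q).totient : ℝ))) := by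
            field_simp
        _ ≤ (|(k : ℝ)| * (M * L) * (1 / ((r / q).totient : ℝ))) * (D * (D * (Q0 / U))) := by
            refine mul_le_mul_of_nonneg_left (mul_le_mul h4 h5 (by positivity) (by linarith)) (by positivity)
        _ = _ := by ring
    · rw [mem_filter, Nat.mem_divisors] at hq
      obtain ⟨⟨hqr, _⟩, hqQ⟩ := hq
      have hq0 : q ≠ 0 := fun h => hr0 (by rw [h, zero_dvd_iff] at hqr; exact hqr)
      have hg0 : r / q ≠ 0 := (Nat.div_pos (Nat.le_of_dvd (by omega) hqr) (Nat.pos_of_ne_zero hq0)).ne'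
      have t1 := tot_pos' hq0
      have t2 := tot_pos' hg0
      have t3 := tot_pos' hr0
      have h2 : (q.totient : ℝ) * ((r / q).totient : ℝ) ≤ (r.totient : ℝ) := by
        have h3 := Nat.totient_super_multiplicative q (r / q)
        rw [Nat.mul_div_cancel' hqr] at h3
        exact_mod_cast h3
      have h4 : (q : ℝ) / q.totient ≤ D :=
        (div_tot_le hq0).trans (hD q (Nat.pos_of_ne_zero hq0) ((Nat.le_of_dvd (by omega) hqr).trans hrR))
      have h5 : 1 / ((r / q).totient : ℝ) ≤ 1 := by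
        rw [div_le_one t2]
        exact_mod_cast Nat.totient_pos.2 (Nat.pos_of_ne_zero hg0)
      have hG := G_nonneg (cp (r / q) a) (cp (r / q) b) s t q
      simp only [hv2]
      calc (1 : ℝ) / r.totient * ((q : ℝ) / q.totient * (|(k : ℝ)| / (r / q).totient) * G (cp (r / q) a) (cp (r / q) b) s t q)
          ≤ 1 / (q.totient * ((r / q).totient : ℝ)) *
            ((q : ℝ) / q.totient * (|(k : ℝ)| / (r / q).totient) * G (cp (r / q) a) (cp (r / q) b) s t q) := by
            refine mul_le_mul_of_nonneg_right (one_div_le_one_div_of_le (mul_pos t1 t2) h2) (mul_nonneg (by positivity) hG)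
        _ = (|(k : ℝ)| * (1 / ((r / q).totient : ℝ)) * (1 / (q.totient : ℝ) * G (cp (r / q) a) (cp (r / q) b) s t q)) *
            ((q : ℝ) / q.totient * (1 / ((r / q).totient : ℝ))) := by
            field_simp
        _ ≤ (|(k : ℝ)| * (1 / ((r / q).totient : ℝ)) * (1 / (q.totient : ℝ) * G (cp (r / q) a) (cp (r / q) b) s t q)) * (D * 1) := by
            refine mul_le_mul_of_nonneg_left (mul_le_mul h4 h5 (by positivity) (by linarith)) ?_
            exact mul_nonneg (by positivity) (mul_nonneg (by positivity) hG)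
        _ = _ := by ring
  refine step.trans ?_
  have b1 : ∑ r ∈ A, ∑ q ∈ r.divisors.filter (fun q => q ≤ Q0), v1 q (r / q) ≤
      |(k : ℝ)| * (M * L * D ^ 2 * (Q0 ^ 2 / U) * (1 + Real.log R) ^ 2) := by
    refine (sw A (Icc 1 Q0) (fun _ => Icc 1 R) (fun _ q => q ≤ Q0) v1 (fun q _ g _ => ?_) fun r hr q hq hP => ?_).trans ?_
    · simp only [hv1]
      positivity
    · obtain ⟨hsq, hrR, hrU⟩ := hA r hr
      have hr0 := hsq.ne_zero
      have hq0 : 0 < q := Nat.pos_of_dvd_of_pos hq (Nat.pos_of_ne_zero hr0)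
      exact ⟨mem_Icc.2 ⟨hq0, hP⟩, mem_Icc.2 ⟨Nat.div_pos (Nat.le_of_dvd (Nat.pos_of_ne_zero hr0) hq) hq0,
        (Nat.div_le_self _ _).trans hrR⟩⟩
    · simp only [hv1]
      rw [sum_const, Nat.card_Icc, nsmul_eq_mul, ← mul_sum, Nat.add_sub_cancel]
      have h5 := sum_inv_tot hR
      have h6 : 0 ≤ |(k : ℝ)| * (M * L * D ^ 2 * (Q0 / U)) := by positivity
      have h7 := mul_le_mul_of_nonneg_left h5 h6
      have h8 := mul_le_mul_of_nonneg_left h7 hQ0.le
      refine h8.trans (le_of_eq ?_)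
      ring
  have b2 : ∑ r ∈ A, ∑ g ∈ r.divisors.filter (fun g => Q0 < r / g), v2 g (r / g) ≤
      |(k : ℝ)| * (32 * D * (1 + Real.log R) ^ 3 * (Real.sqrt M * Real.sqrt L) *
          (R + Real.sqrt M + Real.sqrt L + Real.sqrt M * Real.sqrt L / Q0)) := by
    refine (sw A (Icc 1 R) (fun _ => Icc Q0 R) (fun r g => Q0 < r / g) v2 (fun g _ q _ => ?_) fun r hr g hg hP => ?_).trans ?_
    · simp only [hv2]
      exact mul_nonneg (by positivity) (mul_nonneg (by positivity) (G_nonneg _ _ _ _ _))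
    · obtain ⟨hsq, hrR, hrU⟩ := hA r hr
      have hr0 := hsq.ne_zero
      have hg0 : 0 < g := Nat.pos_of_dvd_of_pos hg (Nat.pos_of_ne_zero hr0)
      exact ⟨mem_Icc.2 ⟨hg0, (Nat.le_of_dvd (Nat.pos_of_ne_zero hr0) hg).trans hrR⟩, mem_Icc.2 ⟨hP.le,
        (Nat.div_le_self _ _).trans hrR⟩⟩
    · set W := 32 * (1 + Real.log R) * (Real.sqrt M * Real.sqrt L) *
          (R + Real.sqrt M + Real.sqrt L + Real.sqrt M * Real.sqrt L / Q0) with hW
      have hW0 : 0 ≤ W := by positivity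
      have h3 : ∀ g ∈ Icc 1 R, ∑ q ∈ Icc Q0 R, v2 g q ≤ |(k : ℝ)| * D * W * (1 / (g.totient : ℝ)) := by
        intro g _
        simp only [hv2]
        rw [← mul_sum]
        have h4 := bilin_tail Q0 R M0 M L0 L hQ (cp_norm g ha) (cp_norm g hb)
        have h5 : 0 ≤ |(k : ℝ)| * D * (1 / (g.totient : ℝ)) := by positivity
        refine (mul_le_mul_of_nonneg_left h4 h5).trans (le_of_eq ?_)
        rw [hW]
        ring
      refine (sum_le_sum h3).trans ?_
      rw [← mul_sum]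
      have h5 := sum_inv_tot hR
      have h6 : 0 ≤ |(k : ℝ)| * D * W := by positivity
      refine (mul_le_mul_of_nonneg_left h5 h6).trans (le_of_eq ?_)
      rw [hW]
      ring
  refine (add_le_add b1 b2).trans (le_of_eq ?_)
  ring

end Pool.Agent.Helper3.AP
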