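import Pool.Agent.Helper3.AP.BlsD

/-!
# A' BLS1, part 5: the sum over `h = (m l, r)`
-/

set_option autoImplicit false

namespace Pool.Agent.Helper3.AP

open Finset
open Pool.Agent.AP (cr)

/-- the bilinear sum at `(g, h, h₁)` -/
noncomputable def Ff (s t : Finset ℕ) (a b : ℕ → ℂ) (k : ℤ) (g h h1 : ℕ) : ℂ :=
  ∑ m ∈ s, ∑ l ∈ t, cp g (ga h h1 a) m * cp g (gb (h / h1) b) l * ((cr g ((m : ℤ) * l + k) : ℝ) : ℂ)

lemma coef_le {h : ℕ} (hh : 0 < h) (g : ℕ) {a b : ℕ → ℂ} (ha : ∀ n, ‖a n‖ ≤ 1) (hb : ∀ n, ‖b n‖ ≤ 1) (m l : ℕ) :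
    ‖∑ h1 ∈ h.divisors, cp g (ga h h1 a) m * cp g (gb (h / h1) b) l‖ ≤ if h ∣ m * l then 1 else 0 := by
  rw [sum_eq_single_of_mem (m.gcd h) (Nat.mem_divisors.2 ⟨Nat.gcd_dvd_right _ _, hh.ne'⟩)]
  · split_ifs with hd
    · rw [norm_mul]
      have h1 := cp_norm g (ga_norm h (m.gcd h) ha) m
      have h2 := cp_norm g (gb_norm (h / m.gcd h) hb) l
      have := mul_le_mul h1 h2 (norm_nonneg _) zero_le_one
      linarith
    · have : gb (h / m.gcd h) b l = 0 := by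
        unfold gb
        rw [if_neg]
        intro h4
        apply hd
        have h6 : m.gcd h * (h / m.gcd h) = h := Nat.mul_div_cancel' (Nat.gcd_dvd_right _ _)
        rw [← h6]
        exact Nat.mul_dvd_mul (Nat.gcd_dvd_left _ _) h4
      have h3 : cp g (gb (h / m.gcd h) b) l = 0 := by
        unfold cp
        rw [this, ite_self]
      rw [h3, mul_zero, norm_zero]
  · intro h1 _ hne
    have h2 : ga h h1 a m = 0 := by
      unfold ga
      rw [if_neg (fun h => hne h.symm)]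
    have : cp g (ga h h1 a) m = 0 := by
      unfold cp
      rw [h2, ite_self]
    rw [this, zero_mul]

lemma total_split {r : ℕ} (hr : Squarefree r) (k : ℤ) (s t : Finset ℕ) (a b : ℕ → ℂ) :
    ∑ m ∈ s, ∑ l ∈ t, a m * b l * ((cr r ((m : ℤ) * l + k) : ℝ) : ℂ) =
      ∑ h ∈ r.divisors, ((cr h k : ℝ) : ℂ) * ∑ h1 ∈ h.divisors, Ff s t a b k (r / h) h h1 := by
  calc ∑ m ∈ s, ∑ l ∈ t, a m * b l * ((cr r ((m : ℤ) * l + k) : ℝ) : ℂ)
      = ∑ m ∈ s, ∑ l ∈ t, ∑ h ∈ r.divisors, ∑ h1 ∈ h.divisors, ((cr h k : ℝ) : ℂ) *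
      (cp (r / h) (ga h h1 a) m * cp (r / h) (gb (h / h1) b) l * ((cr (r / h) ((m : ℤ) * l + k) : ℝ) : ℂ)) :=
        sum_congr rfl fun m _ => sum_congr rfl fun l _ => hsplit hr k a b m l
    _ = ∑ m ∈ s, ∑ h ∈ r.divisors, ∑ l ∈ t, ∑ h1 ∈ h.divisors, ((cr h k : ℝ) : ℂ) *
      (cp (r / h) (ga h h1 a) m * cp (r / h) (gb (h / h1) b) l * ((cr (r / h) ((m : ℤ) * l + k) : ℝ) : ℂ)) :=
        sum_congr rfl fun m _ => sum_comm
    _ = ∑ h ∈ r.divisors, ∑ m ∈ s, ∑ l ∈ t, ∑ h1 ∈ h.divisors, ((cr h k : ℝ) : ℂ) *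
      (cp (r / h) (ga h h1 a) m * cp (r / h) (gb (h / h1) b) l * ((cr (r / h) ((m : ℤ) * l + k) : ℝ) : ℂ)) := sum_comm
    _ = ∑ h ∈ r.divisors, ((cr h k : ℝ) : ℂ) * ∑ h1 ∈ h.divisors, Ff s t a b k (r / h) h h1 := by
        refine sum_congr rfl fun h _ => ?_
        unfold Ff
        rw [mul_sum]
        simp_rw [mul_sum]
        calc ∑ m ∈ s, ∑ l ∈ t, ∑ h1 ∈ h.divisors, ((cr h k : ℝ) : ℂ) *
              (cp (r / h) (ga h h1 a) m * cp (r / h) (gb (h / h1) b) l * ((cr (r / h) ((m : ℤ) * l + k) : ℝ) : ℂ))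
            = ∑ m ∈ s, ∑ h1 ∈ h.divisors, ∑ l ∈ t, ((cr h k : ℝ) : ℂ) *
              (cp (r / h) (ga h h1 a) m * cp (r / h) (gb (h / h1) b) l * ((cr (r / h) ((m : ℤ) * l + k) : ℝ) : ℂ)) :=
              sum_congr rfl fun m _ => sum_comm
          _ = _ := sum_comm

/-- the terms with large `h` -/
lemma large_h {r h : ℕ} (hh : 0 < h) {k : ℤ} (hk : k ≠ 0) (s t : Finset ℕ) {a b : ℕ → ℂ} (ha : ∀ n, ‖a n‖ ≤ 1) (hb : ∀ n, ‖b n‖ ≤ 1) :
    ‖((cr h k : ℝ) : ℂ) * ∑ h1 ∈ h.divisors, Ff s t a b k (r / h) h h1‖ ≤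
      |(k : ℝ)| ^ 2 * ∑ m ∈ s, ∑ l ∈ t, if h ∣ m * l then |cr (r / h) ((m : ℤ) * l + k)| else 0 := by
  rw [norm_mul, Complex.norm_real, Real.norm_eq_abs]
  have e1 : ∑ h1 ∈ h.divisors, Ff s t a b k (r / h) h h1 = ∑ m ∈ s, ∑ l ∈ t,
      (∑ h1 ∈ h.divisors, cp (r / h) (ga h h1 a) m * cp (r / h) (gb (h / h1) b) l) * ((cr (r / h) ((m : ℤ) * l + k) : ℝ) : ℂ) := by
    unfold Ff
    rw [sum_comm]
    refine sum_congr rfl fun m _ => ?_
    rw [sum_comm]
    refine sum_congr rfl fun l _ => ?_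
    rw [sum_mul]
  rw [e1]
  refine mul_le_mul (cr_le h hk) ?_ (norm_nonneg _) (by positivity)
  refine (norm_sum_le _ _).trans (sum_le_sum fun m _ => (norm_sum_le _ _).trans (sum_le_sum fun l _ => ?_))
  rw [norm_mul, Complex.norm_real, Real.norm_eq_abs]
  have h1 := coef_le hh (r / h) ha hb m l
  have h2 := mul_le_mul_of_nonneg_right h1 (abs_nonneg (cr (r / h) ((m : ℤ) * l + k)))
  refine h2.trans (le_of_eq ?_)
  split_ifs
  · rw [one_mul]
  · rw [zero_mul]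

theorem core {M0 M L0 L R R0 H Q0 : ℕ} (hQ : 1 ≤ Q0) (hH : 1 ≤ H) (hHR : H ≤ R) (hR0 : 1 ≤ R0) {k : ℤ} (hk : k ≠ 0)
    (hkH : k.natAbs ≤ H) {D : ℝ} (hD : ∀ n : ℕ, 1 ≤ n → n ≤ R → ((n.divisors.card : ℕ) : ℝ) ≤ D)
    (hD2 : ∀ n : ℕ, 1 ≤ n → n ≤ (M0 + M) * (L0 + L) + k.natAbs → ((n.divisors.card : ℕ) : ℝ) ≤ D)
    {a b : ℕ → ℂ} (ha : ∀ n, ‖a n‖ ≤ 1) (hb : ∀ n, ‖b n‖ ≤ 1) :
    ∑ r ∈ (Ioc R0 R).filter Squarefree, (1 : ℝ) / r.totient *
        ‖∑ m ∈ Ioc M0 (M0 + M), ∑ l ∈ Ioc L0 (L0 + L), a m * b l * ((cr r ((m : ℤ) * l + k) : ℝ) : ℂ)‖ ≤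
      |(k : ℝ)| ^ 2 * D * (1 + Real.log R) ^ 2 * (|(k : ℝ)| * (M * L * D ^ 2 * (Q0 ^ 2 / (R0 / H)) * (1 + Real.log R) ^ 2 +
        32 * D * (1 + Real.log R) ^ 3 * (Real.sqrt M * Real.sqrt L) *
          (R + Real.sqrt M + Real.sqrt L + Real.sqrt M * Real.sqrt L / Q0))) +
      |(k : ℝ)| ^ 2 * D ^ 4 * (1 + Real.log R) ^ 2 * (M * L / H) := by
  classical
  have hR : 1 ≤ R := hH.trans hHR
  have hlog : 0 ≤ Real.log R := Real.log_nonneg (by exact_mod_cast hR)
  have hD1 : 1 ≤ D := by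
    have := hD 1 le_rfl hR
    simpa using this
  have hHpos : (0 : ℝ) < H := by exact_mod_cast hH
  have hR0pos : (0 : ℝ) < R0 := by exact_mod_cast hR0
  have hk0 : 0 ≤ |(k : ℝ)| := abs_nonneg _
  set s := Ioc M0 (M0 + M) with hs
  set t := Ioc L0 (L0 + L) with ht
  set A := (Ioc R0 R).filter Squarefree with hA
  set FB : ℝ := |(k : ℝ)| * (M * L * D ^ 2 * (Q0 ^ 2 / (R0 / H)) * (1 + Real.log R) ^ 2 +
        32 * D * (1 + Real.log R) ^ 3 * (Real.sqrt M * Real.sqrt L) *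
          (R + Real.sqrt M + Real.sqrt L + Real.sqrt M * Real.sqrt L / Q0)) with hFB
  have hFB0 : 0 ≤ FB := by positivity
  set v1 : ℕ → ℕ → ℝ := fun h g => |(k : ℝ)| ^ 2 * (1 / (h.totient : ℝ)) *
    ∑ h1 ∈ h.divisors, (1 / (g.totient : ℝ)) * ‖Ff s t a b k g h h1‖ with hv1
  set v2 : ℕ → ℕ → ℝ := fun h g => |(k : ℝ)| ^ 2 * (1 / (h.totient : ℝ)) *
    ((1 / (g.totient : ℝ)) * ∑ m ∈ s, ∑ l ∈ t, if h ∣ m * l then |cr g ((m : ℤ) * l + k)| else 0) with hv2
  have step : ∑ r ∈ A, (1 : ℝ) / r.totient * ‖∑ m ∈ s, ∑ l ∈ t, a m * b l * ((cr r ((m : ℤ) * l + k) : ℝ) : ℂ)‖ ≤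
      ∑ r ∈ A, ∑ h ∈ r.divisors.filter (fun h => h ≤ H), v1 h (r / h) +
      ∑ r ∈ A, ∑ h ∈ r.divisors.filter (fun h => ¬ h ≤ H), v2 h (r / h) := by
    rw [← sum_add_distrib]
    refine sum_le_sum fun r hr => ?_
    rw [hA, mem_filter, mem_Ioc] at hr
    obtain ⟨⟨hrR0, hrR⟩, hsq⟩ := hr
    have hr0 : r ≠ 0 := hsq.ne_zero
    rw [total_split hsq]
    refine (mul_le_mul_of_nonneg_left (norm_sum_le _ _) (by positivity)).trans ?_
    rw [mul_sum, ← sum_filter_add_sum_filter_not r.divisors (fun h => h ≤ H)]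
    have key : ∀ h ∈ r.divisors, (1 : ℝ) / r.totient ≤ 1 / (h.totient : ℝ) * (1 / ((r / h).totient : ℝ)) := by
      intro h hh
      have hhr : h ∣ r := Nat.dvd_of_mem_divisors hh
      have hh0 : h ≠ 0 := (Nat.pos_of_mem_divisors hh).ne'
      have hg0 : r / h ≠ 0 := (Nat.div_pos (Nat.le_of_dvd (by omega) hhr) (Nat.pos_of_ne_zero hh0)).ne'
      have t1 := tot_pos' hh0
      have t2 := tot_pos' hg0
      have h2 : (h.totient : ℝ) * ((r / h).totient : ℝ) ≤ (r.totient : ℝ) := by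
        have h3 := Nat.totient_super_multiplicative h (r / h)
        rw [Nat.mul_div_cancel' hhr] at h3
        exact_mod_cast h3
      have := one_div_le_one_div_of_le (mul_pos t1 t2) h2
      refine this.trans (le_of_eq ?_)
      rw [one_div_mul_one_div]
    refine add_le_add (sum_le_sum fun h hh => ?_) (sum_le_sum fun h hh => ?_)
    · rw [mem_filter] at hh
      have h1 : ‖((cr h k : ℝ) : ℂ) * ∑ h1 ∈ h.divisors, Ff s t a b k (r / h) h h1‖ ≤
          |(k : ℝ)| ^ 2 * ∑ h1 ∈ h.divisors, ‖Ff s t a b k (r / h) h h1‖ := by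
        rw [norm_mul, Complex.norm_real, Real.norm_eq_abs]
        exact mul_le_mul (cr_le h hk) (norm_sum_le _ _) (norm_nonneg _) (by positivity)
      have h2 : (0 : ℝ) ≤ ∑ h1 ∈ h.divisors, ‖Ff s t a b k (r / h) h h1‖ := sum_nonneg fun _ _ => norm_nonneg _
      calc (1 : ℝ) / r.totient * ‖((cr h k : ℝ) : ℂ) * ∑ h1 ∈ h.divisors, Ff s t a b k (r / h) h h1‖
          ≤ (1 / (h.totient : ℝ) * (1 / ((r / h).totient : ℝ))) * (|(k : ℝ)| ^ 2 * ∑ h1 ∈ h.divisors, ‖Ff s t a b k (r / h) h h1‖) :=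
            mul_le_mul (key h hh.1) h1 (norm_nonneg _) (by positivity)
        _ = v1 h (r / h) := by
            simp only [hv1]
            rw [← mul_sum]
            ring
    · rw [mem_filter] at hh
      have hh0 : 0 < h := Nat.pos_of_mem_divisors hh.1
      have h1 := large_h (r := r) hh0 hk s t ha hb
      calc (1 : ℝ) / r.totient * ‖((cr h k : ℝ) : ℂ) * ∑ h1 ∈ h.divisors, Ff s t a b k (r / h) h h1‖
          ≤ (1 / (h.totient : ℝ) * (1 / ((r / h).totient : ℝ))) * (|(k : ℝ)| ^ 2 * ∑ m ∈ s, ∑ l ∈ t,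
              if h ∣ m * l then |cr (r / h) ((m : ℤ) * l + k)| else 0) :=
            mul_le_mul (key h hh.1) h1 (norm_nonneg _) (by positivity)
        _ = v2 h (r / h) := by
            simp only [hv2]
            ring
  refine step.trans (add_le_add ?_ ?_)
  · refine (sw A (Icc 1 H) (fun _ => (Icc 1 R).filter fun g : ℕ => Squarefree g ∧ ((R0 : ℝ) / H) < g) (fun _ h => h ≤ H) v1
      (fun h _ g _ => ?_) fun r hr h hh hP => ?_).trans ?_
    · simp only [hv1]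
      positivity
    · rw [hA, mem_filter, mem_Ioc] at hr
      obtain ⟨⟨hrR0, hrR⟩, hsq⟩ := hr
      have hr0 : r ≠ 0 := hsq.ne_zero
      have hh0 : 0 < h := Nat.pos_of_dvd_of_pos hh (Nat.pos_of_ne_zero hr0)
      have hg0 : 0 < r / h := Nat.div_pos (Nat.le_of_dvd (Nat.pos_of_ne_zero hr0) hh) hh0
      refine ⟨mem_Icc.2 ⟨hh0, hP⟩, ?_⟩
      rw [mem_filter, mem_Icc]
      refine ⟨⟨hg0, (Nat.div_le_self _ _).trans hrR⟩, hsq.squarefree_of_dvd (Nat.div_dvd_of_dvd hh), ?_⟩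
      rw [div_lt_iff₀ hHpos]
      have h1 : (R0 : ℝ) < r := by exact_mod_cast hrR0
      have h2 : (r : ℝ) = h * ((r / h : ℕ) : ℝ) := by
        rw [← Nat.cast_mul, Nat.mul_div_cancel' hh]
      have h3 : (h : ℝ) ≤ H := by exact_mod_cast hP
      have h4 : (0 : ℝ) < ((r / h : ℕ) : ℝ) := by exact_mod_cast hg0
      nlinarith
    · have h1 : ∀ h ∈ Icc 1 H, ∑ g ∈ (Icc 1 R).filter (fun g : ℕ => Squarefree g ∧ ((R0 : ℝ) / H) < g), v1 h g ≤
          |(k : ℝ)| ^ 2 * (1 / (h.totient : ℝ)) * (D * FB) := by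
        intro h hh
        rw [mem_Icc] at hh
        simp only [hv1]
        rw [← mul_sum, sum_comm]
        refine mul_le_mul_of_nonneg_left ?_ (by positivity)
        have h2 : ∀ h1 ∈ h.divisors, ∑ g ∈ (Icc 1 R).filter (fun g : ℕ => Squarefree g ∧ ((R0 : ℝ) / H) < g),
            (1 / (g.totient : ℝ)) * ‖Ff s t a b k g h h1‖ ≤ FB := by
          intro h1 _
          have := fixed_bound (M0 := M0) (M := M) (L0 := L0) (L := L) (R := R) hQ hR hk (U := (R0 : ℝ) / H)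
            (div_pos hR0pos hHpos) hD ((Icc 1 R).filter fun g : ℕ => Squarefree g ∧ ((R0 : ℝ) / H) < g)
            (fun g hg => by
              rw [mem_filter, mem_Icc] at hg
              exact ⟨hg.2.1, hg.1.2, hg.2.2⟩) (ga_norm h h1 ha) (gb_norm (h / h1) hb)
          exact this
        refine (sum_le_sum h2).trans ?_
        rw [sum_const, nsmul_eq_mul]
        exact mul_le_mul_of_nonneg_right (hD h hh.1 (hh.2.trans hHR)) hFB0
      refine (sum_le_sum h1).trans ?_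
      rw [← sum_mul, ← mul_sum]
      have h2 : ∑ h ∈ Icc 1 H, 1 / (h.totient : ℝ) ≤ (1 + Real.log R) ^ 2 := by
        refine (sum_inv_tot hH).trans ?_
        have h3 : Real.log H ≤ Real.log R := Real.log_le_log hHpos (by exact_mod_cast hHR)
        have h4 : 0 ≤ Real.log H := Real.log_nonneg (by exact_mod_cast hH)
        exact pow_le_pow_left₀ (by linarith) (by linarith) 2
      calc |(k : ℝ)| ^ 2 * (∑ h ∈ Icc 1 H, 1 / (h.totient : ℝ)) * (D * FB)
          ≤ |(k : ℝ)| ^ 2 * (1 + Real.log R) ^ 2 * (D * FB) :=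
            mul_le_mul_of_nonneg_right (mul_le_mul_of_nonneg_left h2 (by positivity)) (by positivity)
        _ = _ := by ring
  · refine (sw A (Ioc H R) (fun _ => Icc 1 R) (fun _ h => ¬ h ≤ H) v2 (fun h _ g _ => ?_) fun r hr h hh hP => ?_).trans ?_
    · simp only [hv2]
      have : (0 : ℝ) ≤ ∑ m ∈ s, ∑ l ∈ t, if h ∣ m * l then |cr g ((m : ℤ) * l + k)| else 0 :=
        sum_nonneg fun _ _ => sum_nonneg fun _ _ => by split_ifs <;> simp
      positivity
    · rw [hA, mem_filter, mem_Ioc] at hr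
      obtain ⟨⟨hrR0, hrR⟩, hsq⟩ := hr
      have hr0 : r ≠ 0 := hsq.ne_zero
      have hh0 : 0 < h := Nat.pos_of_dvd_of_pos hh (Nat.pos_of_ne_zero hr0)
      have hg0 : 0 < r / h := Nat.div_pos (Nat.le_of_dvd (Nat.pos_of_ne_zero hr0) hh) hh0
      exact ⟨mem_Ioc.2 ⟨not_le.1 hP, (Nat.le_of_dvd (Nat.pos_of_ne_zero hr0) hh).trans hrR⟩,
        mem_Icc.2 ⟨hg0, (Nat.div_le_self _ _).trans hrR⟩⟩
    · have hml : ∀ m ∈ s, ∀ l ∈ t, 1 ≤ m * l ∧ m * l ≤ (M0 + M) * (L0 + L) := by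
        intro m hm l hl
        rw [hs, mem_Ioc] at hm
        rw [ht, mem_Ioc] at hl
        exact ⟨Nat.mul_pos (by omega) (by omega), Nat.mul_le_mul hm.2 hl.2⟩
      have h1 : ∀ h ∈ Ioc H R, ∑ g ∈ Icc 1 R, v2 h g ≤
          ∑ m ∈ s, ∑ l ∈ t, if h ∣ m * l then |(k : ℝ)| ^ 2 * (D / H) * (D ^ 2 * (1 + Real.log R) ^ 2) else 0 := by
        intro h hh
        rw [mem_Ioc] at hh
        have hh0 : h ≠ 0 := by omega
        simp only [hv2]
        rw [← mul_sum]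
        have e1 : ∑ g ∈ Icc 1 R, (1 / (g.totient : ℝ)) * ∑ m ∈ s, ∑ l ∈ t, (if h ∣ m * l then |cr g ((m : ℤ) * l + k)| else 0) =
            ∑ m ∈ s, ∑ l ∈ t, if h ∣ m * l then ∑ g ∈ Icc 1 R, (1 / (g.totient : ℝ)) * |cr g ((m : ℤ) * l + k)| else 0 := by
          simp_rw [mul_sum]
          rw [sum_comm]
          refine sum_congr rfl fun m _ => ?_
          rw [sum_comm]
          refine sum_congr rfl fun l _ => ?_
          split_ifs
          · rfl
          · simp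
        rw [e1, mul_sum]
        refine sum_le_sum fun m hm => ?_
        rw [mul_sum]
        refine sum_le_sum fun l hl => ?_
        split_ifs with hd
        · obtain ⟨h2, h3⟩ := hml m hm l hl
          have hN : ((m : ℤ) * l + k) ≠ 0 := by
            intro h0
            have h4 : (h : ℤ) ∣ k := by
              have h5 : (h : ℤ) ∣ ((m * l : ℕ) : ℤ) := Int.natCast_dvd_natCast.2 hd
              have h6 : k = -((m * l : ℕ) : ℤ) := by
                push_cast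
                linarith
              rw [h6]
              exact (dvd_neg).2 h5
            have h5 : h ∣ k.natAbs := Int.natCast_dvd.1 h4
            have h6 := Nat.le_of_dvd (Int.natAbs_pos.2 hk) h5
            omega
          have hDN : ((((m : ℤ) * l + k).natAbs.divisors.card : ℕ) : ℝ) ≤ D := by
            refine hD2 _ (Int.natAbs_pos.2 hN) ?_
            have h4 : ((m : ℤ) * l + k).natAbs ≤ ((m : ℤ) * l).natAbs + k.natAbs := Int.natAbs_add_le _ _
            have h5 : ((m : ℤ) * l).natAbs = m * l := by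
              rw [← Nat.cast_mul, Int.natAbs_natCast]
            omega
          have h4 := cr_sum hN hDN R
          have h5 : 1 / (h.totient : ℝ) ≤ D / H := by
            have h6 := div_tot_le hh0
            have h7 := h6.trans (hD h (by omega) hh.2)
            have t1 := tot_pos' hh0
            rw [div_le_iff₀ t1] at h7
            rw [div_le_div_iff₀ t1 hHpos, one_mul]
            have h8 : (H : ℝ) ≤ h := by exact_mod_cast hh.1.le
            linarith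
          have h6 : (0 : ℝ) ≤ ∑ g ∈ Icc 1 R, (1 / (g.totient : ℝ)) * |cr g ((m : ℤ) * l + k)| :=
            sum_nonneg fun _ _ => by positivity
          exact mul_le_mul (mul_le_mul_of_nonneg_left h5 (by positivity)) h4 h6 (by positivity)
        · rw [mul_zero]
      refine (sum_le_sum h1).trans ?_
      rw [sum_comm]
      have h2 : ∀ m ∈ s, ∑ h ∈ Ioc H R, ∑ l ∈ t, (if h ∣ m * l then |(k : ℝ)| ^ 2 * (D / H) * (D ^ 2 * (1 + Real.log R) ^ 2) else 0) ≤
          L * (D * (|(k : ℝ)| ^ 2 * (D / H) * (D ^ 2 * (1 + Real.log R) ^ 2))) := by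
        intro m hm
        rw [sum_comm]
        have h3 : ∀ l ∈ t, ∑ h ∈ Ioc H R, (if h ∣ m * l then |(k : ℝ)| ^ 2 * (D / H) * (D ^ 2 * (1 + Real.log R) ^ 2) else 0) ≤
            D * (|(k : ℝ)| ^ 2 * (D / H) * (D ^ 2 * (1 + Real.log R) ^ 2)) := by
          intro l hl
          obtain ⟨h2, h3⟩ := hml m hm l hl
          rw [← sum_filter, sum_const, nsmul_eq_mul]
          refine mul_le_mul_of_nonneg_right ?_ (by positivity)
          refine le_trans ?_ (hD2 (m * l) h2 (by omega))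
          have : (Ioc H R).filter (fun h => h ∣ m * l) ⊆ (m * l).divisors := by
            intro h hh
            rw [mem_filter] at hh
            exact Nat.mem_divisors.2 ⟨hh.2, by omega⟩
          exact_mod_cast card_le_card this
        refine (sum_le_sum h3).trans ?_
        rw [sum_const, nsmul_eq_mul, ht, Nat.card_Ioc, Nat.add_sub_cancel_left]
      refine (sum_le_sum h2).trans ?_
      rw [sum_const, nsmul_eq_mul, hs, Nat.card_Ioc, Nat.add_sub_cancel_left]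
      refine le_of_eq ?_
      field_simp

end Pool.Agent.Helper3.AP
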