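import Pool.Agent.Helper93.MLS

/-!
# A' B-terms, part 1: the bilinear large sieve with the weights `1 / φ(q)`, `q ≥ Z`
-/

set_option autoImplicit false

namespace Pool.Agent.Helper3.AP

open Finset
open Pool.Agent.Helper93.MLS (mls_weight)

open Classical in
/-- the sum over the primitive characters modulo `f` -/
noncomputable def G (a b : ℕ → ℂ) (s t : Finset ℕ) (f : ℕ) : ℝ :=
  ∑ χ ∈ (Finset.univ : Finset (DirichletCharacter ℂ f)).filter (fun χ => χ.IsPrimitive),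
    ‖∑ n ∈ s, a n * χ n‖ * ‖∑ n ∈ t, b n * χ n‖

lemma G_nonneg (a b : ℕ → ℂ) (s t : Finset ℕ) (f : ℕ) : 0 ≤ G a b s t f := by
  unfold G
  exact sum_nonneg fun _ _ => by positivity

lemma bilin_weight (Q M N M' N' : ℕ) {a b : ℕ → ℂ} (ha : ∀ n, ‖a n‖ ≤ 1) (hb : ∀ n, ‖b n‖ ≤ 1) :
    ∑ q ∈ Icc 1 Q, (q : ℝ) / q.totient * G a b (Ioc M (M + N)) (Ioc M' (M' + N')) q ≤
      4 * (Q + Real.sqrt N) * (Q + Real.sqrt N') * (Real.sqrt N * Real.sqrt N') := by
  classical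
  have hpi := Real.pi_pos
  have hpi4 := Real.pi_le_four
  have hN0 : (0 : ℝ) ≤ N := Nat.cast_nonneg N
  have hN0' : (0 : ℝ) ≤ N' := Nat.cast_nonneg N'
  have hQ0 : (0 : ℝ) ≤ Q := Nat.cast_nonneg Q
  set c : ℕ → ℝ := fun q => (q : ℝ) / q.totient with hc
  have hc0 : ∀ q, 0 ≤ c q := fun q => by positivity
  set A : (q : ℕ) → DirichletCharacter ℂ q → ℝ := fun q χ => ‖∑ n ∈ Ioc M (M + N), a n * χ n‖ with hA
  set B : (q : ℕ) → DirichletCharacter ℂ q → ℝ := fun q χ => ‖∑ n ∈ Ioc M' (M' + N'), b n * χ n‖ with hB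
  have e1 : ∑ q ∈ Icc 1 Q, (q : ℝ) / q.totient * G a b (Ioc M (M + N)) (Ioc M' (M' + N')) q =
      ∑ p ∈ (Icc 1 Q).sigma fun q => (Finset.univ : Finset (DirichletCharacter ℂ q)).filter (fun χ => χ.IsPrimitive),
        (Real.sqrt (c p.1) * A p.1 p.2) * (Real.sqrt (c p.1) * B p.1 p.2) := by
    rw [Finset.sum_sigma]
    refine sum_congr rfl fun q _ => ?_
    unfold G
    rw [mul_sum]
    refine sum_congr rfl fun χ _ => ?_
    have := Real.mul_self_sqrt (hc0 q)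
    calc (q : ℝ) / q.totient * (‖∑ n ∈ Ioc M (M + N), a n * χ n‖ * ‖∑ n ∈ Ioc M' (M' + N'), b n * χ n‖)
        = (Real.sqrt (c q) * Real.sqrt (c q)) * (A q χ * B q χ) := by rw [this]
      _ = _ := by ring
  rw [e1]
  refine (Real.sum_mul_le_sqrt_mul_sqrt _ _ _).trans ?_
  have e2 : ∀ (F : (q : ℕ) → DirichletCharacter ℂ q → ℝ),
      ∑ p ∈ (Icc 1 Q).sigma fun q => (Finset.univ : Finset (DirichletCharacter ℂ q)).filter (fun χ => χ.IsPrimitive),
        (Real.sqrt (c p.1) * F p.1 p.2) ^ 2 =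
      ∑ q ∈ Icc 1 Q, (q : ℝ) / q.totient *
        ∑ χ ∈ (Finset.univ : Finset (DirichletCharacter ℂ q)).filter (fun χ => χ.IsPrimitive), F q χ ^ 2 := by
    intro F
    rw [Finset.sum_sigma]
    refine sum_congr rfl fun q _ => ?_
    rw [mul_sum]
    refine sum_congr rfl fun χ _ => ?_
    rw [mul_pow, Real.sq_sqrt (hc0 q)]
  rw [e2 A, e2 B]
  have key : ∀ (K R : ℕ) (g : ℕ → ℂ), (∀ n, ‖g n‖ ≤ 1) →
      Real.sqrt (∑ q ∈ Icc 1 Q, (q : ℝ) / q.totient *
        ∑ χ ∈ (Finset.univ : Finset (DirichletCharacter ℂ q)).filter (fun χ => χ.IsPrimitive),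
          ‖∑ n ∈ Ioc K (K + R), g n * χ n‖ ^ 2) ≤ 2 * (Q + Real.sqrt R) * Real.sqrt R := by
    intro K R g hg
    have hR0 : (0 : ℝ) ≤ R := Nat.cast_nonneg R
    refine Real.sqrt_le_iff.2 ⟨by positivity, ?_⟩
    refine (mls_weight Q K R g).trans ?_
    have h1 : ∑ n ∈ Ioc K (K + R), ‖g n‖ ^ 2 ≤ R := by
      calc ∑ n ∈ Ioc K (K + R), ‖g n‖ ^ 2 ≤ ∑ n ∈ Ioc K (K + R), (1 : ℝ) := by
            refine sum_le_sum fun n _ => ?_
            have := hg n
            have h0 := norm_nonneg (g n)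
            nlinarith
        _ = R := by simp
    have h2 : (Q : ℝ) ^ 2 + Real.pi * R ≤ 4 * (Q + Real.sqrt R) ^ 2 := by
      have h3 := Real.sq_sqrt hR0
      have h4 := Real.sqrt_nonneg (R : ℝ)
      nlinarith [mul_nonneg hQ0 h4]
    calc ((Q : ℝ) ^ 2 + Real.pi * R) * ∑ n ∈ Ioc K (K + R), ‖g n‖ ^ 2
        ≤ (4 * (Q + Real.sqrt R) ^ 2) * R := by
          refine mul_le_mul h2 h1 (sum_nonneg fun _ _ => by positivity) (by positivity)
      _ = (2 * (Q + Real.sqrt R) * Real.sqrt R) ^ 2 := by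
          rw [mul_pow, mul_pow, Real.sq_sqrt hR0]
          ring
  have k1 := key M N a ha
  have k2 := key M' N' b hb
  calc _ ≤ (2 * (Q + Real.sqrt N) * Real.sqrt N) * (2 * (Q + Real.sqrt N') * Real.sqrt N') :=
        mul_le_mul k1 k2 (Real.sqrt_nonneg _) (by positivity)
    _ = _ := by ring

lemma log2_le {X : ℕ} (hX : 1 ≤ X) : (Nat.log 2 X : ℝ) ≤ 2 * Real.log X := by
  have h1 : (2 : ℝ) ^ Nat.log 2 X ≤ X := by exact_mod_cast Nat.pow_log_le_self 2 (by omega)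
  have h2 : (Nat.log 2 X : ℝ) * Real.log 2 ≤ Real.log X := by
    rw [← Real.log_pow]
    exact Real.log_le_log (by positivity) h1
  have h3 := Real.log_two_gt_d9
  have h4 : (0 : ℝ) ≤ Nat.log 2 X := Nat.cast_nonneg _
  nlinarith

lemma geom_up (n : ℕ) : ∑ i ∈ range (n + 1), (2 : ℝ) ^ i ≤ 2 * 2 ^ n := by
  rw [geom_sum_eq (by norm_num)]
  rw [pow_succ]
  have : (0 : ℝ) < 2 ^ n := by positivity
  linarith

lemma geom_down (m n : ℕ) : ∑ i ∈ Icc m n, (1 : ℝ) / 2 ^ i ≤ 2 / 2 ^ m := by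
  rcases lt_or_ge n m with h | h
  · rw [Icc_eq_empty (by omega), sum_empty]
    positivity
  · have h1 : ∀ k : ℕ, ∑ i ∈ Icc m (m + k), (1 : ℝ) / 2 ^ i = 2 / 2 ^ m - 1 / 2 ^ (m + k) := by
      intro k
      induction k with
      | zero =>
        rw [add_zero, Icc_self, sum_singleton]
        ring
      | succ k ih =>
        rw [← Nat.add_assoc, Finset.sum_Icc_succ_top (by omega : m ≤ m + k + 1), ih, pow_succ (2 : ℝ) (m + k)]
        have : (0 : ℝ) < 2 ^ (m + k) := by positivity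
        field_simp
        ring
    obtain ⟨k, rfl⟩ := Nat.exists_eq_add_of_le h
    rw [h1 k]
    have : (0 : ℝ) < 1 / 2 ^ (m + k) := by positivity
    linarith

/-- the sum over the moduli `Z ≤ f ≤ X` -/
theorem bilin_tail (Z X M N M' N' : ℕ) (hZ : 1 ≤ Z) {a b : ℕ → ℂ} (ha : ∀ n, ‖a n‖ ≤ 1) (hb : ∀ n, ‖b n‖ ≤ 1) :
    ∑ f ∈ Icc Z X, (1 : ℝ) / f.totient * G a b (Ioc M (M + N)) (Ioc M' (M' + N')) f ≤
      32 * (1 + Real.log X) * (Real.sqrt N * Real.sqrt N') *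
        (X + Real.sqrt N + Real.sqrt N' + Real.sqrt N * Real.sqrt N' / Z) := by
  rcases Nat.eq_zero_or_pos X with hX | hX
  · subst hX
    rw [Icc_eq_empty (by omega), sum_empty]
    simp only [Nat.cast_zero, Real.log_zero]
    positivity
  have hlX : 0 ≤ Real.log X := Real.log_nonneg (by exact_mod_cast hX)
  set g : ℕ → ℝ := fun f => G a b (Ioc M (M + N)) (Ioc M' (M' + N')) f with hg
  have hg0 : ∀ f, 0 ≤ g f := fun f => G_nonneg _ _ _ _ f
  set u := Real.sqrt N with hu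
  set v := Real.sqrt N' with hv
  have hu0 : 0 ≤ u := Real.sqrt_nonneg _
  have hv0 : 0 ≤ v := Real.sqrt_nonneg _
  set i0 := Nat.log 2 Z with hi0
  set i1 := Nat.log 2 X with hi1
  have hmap : ∀ f ∈ Icc Z X, Nat.log 2 f ∈ Icc i0 i1 := by
    intro f hf
    rw [mem_Icc] at hf ⊢
    exact ⟨Nat.log_mono_right hf.1, Nat.log_mono_right hf.2⟩
  rw [← sum_fiberwise_of_maps_to hmap]
  have hterm : ∀ i ∈ Icc i0 i1, ∑ f ∈ (Icc Z X).filter (fun f => Nat.log 2 f = i), (1 : ℝ) / f.totient * g f ≤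
      4 * (u * v) * (4 * 2 ^ i + 2 * (u + v) + u * v * (1 / 2 ^ i)) := by
    intro i _
    have h2 : (0 : ℝ) < 2 ^ i := by positivity
    have h1 : ∑ f ∈ (Icc Z X).filter (fun f => Nat.log 2 f = i), (1 : ℝ) / f.totient * g f ≤
        1 / 2 ^ i * ∑ q ∈ Icc (1 : ℕ) (2 ^ (i + 1)), (q : ℝ) / q.totient * g q := by
      rw [mul_sum]
      refine (sum_le_sum (g := fun f : ℕ => 1 / 2 ^ i * ((f : ℝ) / f.totient * g f)) fun f hf => ?_).trans
        (sum_le_sum_of_subset_of_nonneg ?_ fun q _ _ => ?_)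
      · rw [mem_filter, mem_Icc] at hf
        have hf1 : 2 ^ i ≤ f := by
          rw [← hf.2]
          exact Nat.pow_log_le_self 2 (by omega)
        have hf2 : (2 : ℝ) ^ i ≤ f := by exact_mod_cast hf1
        have h3 : (1 : ℝ) ≤ f / 2 ^ i := (one_le_div h2).2 hf2
        have h4 : (0 : ℝ) ≤ 1 / f.totient * g f := mul_nonneg (by positivity) (hg0 f)
        calc (1 : ℝ) / f.totient * g f ≤ (f / 2 ^ i) * (1 / f.totient * g f) := by nlinarith
          _ = 1 / 2 ^ i * ((f : ℝ) / f.totient * g f) := by ring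
      · intro f hf
        rw [mem_filter, mem_Icc] at hf
        rw [mem_Icc]
        refine ⟨by omega, ?_⟩
        have := Nat.lt_pow_succ_log_self (b := 2) (by norm_num) f
        rw [hf.2] at this
        exact this.le
      · exact mul_nonneg (by positivity) (mul_nonneg (by positivity) (hg0 q))
    have h5 := bilin_weight (2 ^ (i + 1)) M N M' N' ha hb
    refine h1.trans ((mul_le_mul_of_nonneg_left h5 (by positivity)).trans (le_of_eq ?_))
    push_cast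
    rw [← hu, ← hv, pow_succ]
    field_simp
    ring
  refine (sum_le_sum hterm).trans ?_
  rw [← mul_sum, sum_add_distrib, sum_add_distrib, ← mul_sum, ← mul_sum, sum_const, Nat.card_Icc, nsmul_eq_mul]
  have s1 : ∑ i ∈ Icc i0 i1, (2 : ℝ) ^ i ≤ 2 * X := by
    have h1 : ∑ i ∈ Icc i0 i1, (2 : ℝ) ^ i ≤ ∑ i ∈ range (i1 + 1), (2 : ℝ) ^ i := by
      refine sum_le_sum_of_subset_of_nonneg ?_ fun _ _ _ => by positivity
      intro i hi
      rw [mem_Icc] at hi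
      rw [mem_range]
      omega
    have h2 : (2 : ℝ) ^ i1 ≤ X := by exact_mod_cast Nat.pow_log_le_self 2 (by omega)
    linarith [geom_up i1]
  have s2 : ∑ i ∈ Icc i0 i1, (1 : ℝ) / 2 ^ i ≤ 4 / Z := by
    refine (geom_down i0 i1).trans ?_
    have h1 : Z < 2 ^ (i0 + 1) := Nat.lt_pow_succ_log_self (by norm_num) Z
    have h2 : (Z : ℝ) ≤ 2 * 2 ^ i0 := by
      have : (Z : ℝ) < 2 ^ (i0 + 1) := by exact_mod_cast h1
      rw [pow_succ] at this
      linarith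
    have hZ0 : (0 : ℝ) < Z := by exact_mod_cast hZ
    rw [div_le_div_iff₀ (by positivity) hZ0]
    linarith
  have s3 : ((i1 + 1 - i0 : ℕ) : ℝ) ≤ 1 + 2 * Real.log X := by
    have h1 : ((i1 + 1 - i0 : ℕ) : ℝ) ≤ ((i1 + 1 : ℕ) : ℝ) := by exact_mod_cast Nat.sub_le _ _
    have h2 := log2_le hX
    push_cast at h1
    linarith
  have hZ0 : (0 : ℝ) < Z := by exact_mod_cast hZ
  have huv : 0 ≤ u * v := mul_nonneg hu0 hv0
  have hX0 : (0 : ℝ) < X := by exact_mod_cast hX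
  have t1 : 4 * ∑ i ∈ Icc i0 i1, (2 : ℝ) ^ i + ((i1 + 1 - i0 : ℕ) : ℝ) * (2 * (u + v)) +
      u * v * ∑ i ∈ Icc i0 i1, (1 : ℝ) / 2 ^ i ≤ 8 * (1 + Real.log X) * (X + u + v + u * v / Z) := by
    have r1 : ((i1 + 1 - i0 : ℕ) : ℝ) * (2 * (u + v)) ≤ (1 + 2 * Real.log X) * (2 * (u + v)) :=
      mul_le_mul_of_nonneg_right s3 (by positivity)
    have r2 : u * v * ∑ i ∈ Icc i0 i1, (1 : ℝ) / 2 ^ i ≤ u * v * (4 / Z) := mul_le_mul_of_nonneg_left s2 huv
    have r3 : u * v * (4 / Z) = 4 * (u * v / Z) := by ring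
    have r4 : 0 ≤ u * v / Z := by positivity
    have r5 : 0 ≤ Real.log X * X := by positivity
    have r6 : 0 ≤ Real.log X * (u * v / Z) := by positivity
    have r7 : 0 ≤ Real.log X * (u + v) := by positivity
    nlinarith
  rw [← mul_sum]
  have t2 := mul_le_mul_of_nonneg_left t1 (by positivity : 0 ≤ 4 * (u * v))
  refine le_trans (le_of_eq ?_) (t2.trans (le_of_eq ?_))
  · ring
  · ring

end Pool.Agent.Helper3.AP
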