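import Pool.Agent.Helper3.AP.BtLS

/-!
# A' B-terms, part 2: one modulus `q = d P`
-/

set_option autoImplicit false

namespace Pool.Agent.Helper3.AP

open Finset

/-- orthogonality, with the inverse outside -/
lemma orth {q : ℕ} [NeZero q] {k : ZMod q} (hk : IsUnit k) (x : ZMod q) :
    ∑ χ : DirichletCharacter ℂ q, (χ k)⁻¹ * χ x = if k = x then (q.totient : ℂ) else 0 := by
  have h := DirichletCharacter.sum_char_inv_mul_char_eq (R := ℂ) hk x
  rw [← h]
  refine sum_congr rfl fun χ _ => ?_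
  congr 1
  have h1 : χ k⁻¹ * χ k = 1 := by
    rw [← map_mul, ZMod.inv_mul_of_unit k hk, map_one]
  exact (eq_inv_of_mul_eq_one_left h1).symm

/-- bilinear orthogonality -/
lemma orth_bil {q : ℕ} [NeZero q] {k : ZMod q} (hk : IsUnit k) (s t : Finset ℕ) (a b : ℕ → ℂ) :
    (q.totient : ℂ) * ∑ m ∈ s, ∑ l ∈ t, a m * b l * (if k = (m : ZMod q) * (l : ZMod q) then 1 else 0) =
      ∑ χ : DirichletCharacter ℂ q, (χ k)⁻¹ * ((∑ m ∈ s, a m * χ m) * (∑ l ∈ t, b l * χ l)) := by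
  have e1 : ∀ χ : DirichletCharacter ℂ q, (χ k)⁻¹ * ((∑ m ∈ s, a m * χ m) * (∑ l ∈ t, b l * χ l)) =
      ∑ m ∈ s, ∑ l ∈ t, a m * b l * ((χ k)⁻¹ * χ ((m : ZMod q) * (l : ZMod q))) := by
    intro χ
    rw [sum_mul_sum, mul_sum]
    refine sum_congr rfl fun m _ => ?_
    rw [mul_sum]
    refine sum_congr rfl fun l _ => ?_
    rw [map_mul]
    ring
  have e2 : ∑ χ : DirichletCharacter ℂ q, ∑ m ∈ s, ∑ l ∈ t, a m * b l * ((χ k)⁻¹ * χ ((m : ZMod q) * (l : ZMod q))) =
      ∑ m ∈ s, ∑ l ∈ t, ∑ χ : DirichletCharacter ℂ q, a m * b l * ((χ k)⁻¹ * χ ((m : ZMod q) * (l : ZMod q))) := by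
    rw [sum_comm]
    exact sum_congr rfl fun m _ => sum_comm
  simp_rw [e1]
  rw [e2, mul_sum]
  refine sum_congr rfl fun m _ => ?_
  rw [mul_sum]
  refine sum_congr rfl fun l _ => ?_
  rw [← mul_sum, orth hk]
  split_ifs <;> ring

/-- values of a character of level `d` changed to level `q` -/
lemma cl_apply {d q : ℕ} (hd : d ∣ q) (ψ : DirichletCharacter ℂ d) (n : ℤ) :
    (DirichletCharacter.changeLevel hd ψ) (n : ZMod q) = if IsCoprime n (q : ℤ) then ψ (n : ZMod d) else 0 := by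
  split_ifs with h
  · have h1 := DirichletCharacter.changeLevel_eq_cast_of_dvd ψ hd (ZMod.unitOfIsCoprime n h)
    rw [ZMod.coe_unitOfIsCoprime, ZMod.cast_intCast hd] at h1
    exact h1
  · refine MulChar.map_nonunit _ fun hu => h ?_
    exact (ZMod.coe_int_isUnit_iff_isCoprime n q).1 hu |>.symm

/-- the coefficients restricted to the integers coprime to `h` -/
def cp (h : ℕ) (a : ℕ → ℂ) (n : ℕ) : ℂ := if n.Coprime h then a n else 0

lemma cp_norm (h : ℕ) {a : ℕ → ℂ} (ha : ∀ n, ‖a n‖ ≤ 1) (n : ℕ) : ‖cp h a n‖ ≤ 1 := by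
  unfold cp
  split_ifs
  · exact ha n
  · simp

lemma cl_sum {d P : ℕ} (ψ : DirichletCharacter ℂ d) (s : Finset ℕ) (a : ℕ → ℂ) :
    ∑ m ∈ s, a m * (DirichletCharacter.changeLevel (Dvd.intro P rfl : d ∣ d * P) ψ) m =
      ∑ m ∈ s, cp P a m * ψ m := by
  refine sum_congr rfl fun m _ => ?_
  have h := cl_apply (Dvd.intro P rfl : d ∣ d * P) ψ (m : ℤ)
  push_cast at h
  rw [h]
  unfold cp
  have hiff : IsCoprime (m : ℤ) ((d : ℤ) * (P : ℤ)) ↔ m.Coprime d ∧ m.Coprime P := by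
    rw [← Nat.cast_mul, Nat.isCoprime_iff_coprime, Nat.coprime_mul_iff_right]
  by_cases h1 : m.Coprime P
  · by_cases h2 : m.Coprime d
    · rw [if_pos (hiff.2 ⟨h2, h1⟩), if_pos h1]
    · rw [if_neg (fun h => h2 (hiff.1 h).1), if_pos h1]
      have : ψ (m : ZMod d) = 0 := MulChar.map_nonunit _ fun hu => h2 ((ZMod.isUnit_iff_coprime m d).1 hu)
      rw [this]
  · rw [if_neg (fun h => h1 (hiff.1 h).2), if_neg h1, zero_mul, mul_zero]

open Classical in
/-- the characters modulo `d P` not coming from characters modulo `d` -/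
noncomputable def NE (d P : ℕ) : Finset (DirichletCharacter ℂ (d * P)) :=
  Finset.univ.filter fun χ => ∀ ψ : DirichletCharacter ℂ d, DirichletCharacter.changeLevel (Dvd.intro P rfl : d ∣ d * P) ψ ≠ χ

lemma split {d P : ℕ} (hd : d ≠ 0) (hP : P ≠ 0) {k : ℤ} (hk : IsCoprime k ((d * P : ℕ) : ℤ)) (s t : Finset ℕ) (a b : ℕ → ℂ) :
    ((d * P).totient : ℂ) * (∑ m ∈ s, ∑ l ∈ t, a m * b l * (if (k : ZMod (d * P)) = (m : ZMod (d * P)) * l then 1 else 0)) -
      (d.totient : ℂ) * (∑ m ∈ s, ∑ l ∈ t, cp P a m * cp P b l * (if (k : ZMod d) = (m : ZMod d) * l then 1 else 0)) =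
      ∑ χ ∈ NE d P, (χ (k : ZMod (d * P)))⁻¹ * ((∑ m ∈ s, a m * χ m) * (∑ l ∈ t, b l * χ l)) := by
  classical
  have : NeZero (d * P) := ⟨mul_ne_zero hd hP⟩
  have : NeZero d := ⟨hd⟩
  have hu : IsUnit (k : ZMod (d * P)) := (ZMod.coe_int_isUnit_iff_isCoprime k _).2 hk.symm
  have hkd : IsCoprime k (d : ℤ) := by
    push_cast at hk
    exact hk.of_mul_right_left
  have hu' : IsUnit (k : ZMod d) := (ZMod.coe_int_isUnit_iff_isCoprime k _).2 hkd.symm
  rw [orth_bil hu, orth_bil hu']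
  set F : DirichletCharacter ℂ (d * P) → ℂ := fun χ =>
    (χ (k : ZMod (d * P)))⁻¹ * ((∑ m ∈ s, a m * χ m) * (∑ l ∈ t, b l * χ l)) with hF
  have e1 : ∀ ψ : DirichletCharacter ℂ d, (ψ (k : ZMod d))⁻¹ * ((∑ m ∈ s, cp P a m * ψ m) * (∑ l ∈ t, cp P b l * ψ l)) =
      F (DirichletCharacter.changeLevel (Dvd.intro P rfl : d ∣ d * P) ψ) := by
    intro ψ
    simp only [hF]
    rw [cl_sum, cl_sum, cl_apply, if_pos hk]
  simp_rw [e1]
  have e2 : ∑ ψ : DirichletCharacter ℂ d, F (DirichletCharacter.changeLevel (Dvd.intro P rfl : d ∣ d * P) ψ) =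
      ∑ χ ∈ Finset.univ.image (fun ψ : DirichletCharacter ℂ d => DirichletCharacter.changeLevel (Dvd.intro P rfl : d ∣ d * P) ψ), F χ := by
    rw [sum_image]
    intro ψ _ ψ' _ h
    exact DirichletCharacter.changeLevel_injective _ h
  rw [e2]
  have e3 : NE d P = Finset.univ \ Finset.univ.image
      (fun ψ : DirichletCharacter ℂ d => DirichletCharacter.changeLevel (Dvd.intro P rfl : d ∣ d * P) ψ) := by
    ext χ
    unfold NE
    simp
  rw [e3, sub_eq_iff_eq_add]
  exact (sum_sdiff (subset_univ _)).symm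

/-- a character not coming from level `d` has a large conductor -/
lemma cond_large {d P Z : ℕ} (hd : d ≠ 0) (hP : P ≠ 0) (hZ : ∀ p : ℕ, p.Prime → p ∣ P → Z ≤ p)
    {χ : DirichletCharacter ℂ (d * P)} (hχ : χ ∈ NE d P) : Z ≤ χ.conductor := by
  classical
  by_contra hlt
  rw [not_le] at hlt
  have : NeZero (d * P) := ⟨mul_ne_zero hd hP⟩
  have hf := χ.conductor_dvd_level
  have hf0 : χ.conductor ≠ 0 := fun h => by
    rw [h, zero_dvd_iff] at hf
    exact (mul_ne_zero hd hP) hf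
  have hc : χ.conductor.Coprime P := by
    rw [Nat.coprime_iff_gcd_eq_one]
    by_contra hg
    obtain ⟨p, hp, hpd⟩ := Nat.exists_prime_and_dvd hg
    have h1 := hZ p hp (hpd.trans (Nat.gcd_dvd_right _ _))
    have h2 := Nat.le_of_dvd (Nat.pos_of_ne_zero hf0) (hpd.trans (Nat.gcd_dvd_left _ _))
    omega
  have hfd : χ.conductor ∣ d := hc.dvd_of_dvd_mul_right hf
  simp only [NE, mem_filter, mem_univ, true_and] at hχ
  refine hχ (DirichletCharacter.changeLevel hfd χ.primitiveCharacter) ?_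
  rw [← DirichletCharacter.changeLevel_trans]
  exact χ.changeLevel_primitiveCharacter

lemma prim_sum {q : ℕ} [NeZero q] (χ : DirichletCharacter ℂ q) (s : Finset ℕ) (a : ℕ → ℂ) :
    ∑ m ∈ s, a m * χ m = ∑ m ∈ s, cp (q / χ.conductor) a m * χ.primitiveCharacter m := by
  have hf := χ.conductor_dvd_level
  have hq : q ≠ 0 := NeZero.ne q
  refine sum_congr rfl fun m _ => ?_
  have hqf : χ.conductor * (q / χ.conductor) = q := Nat.mul_div_cancel' hf
  unfold cp
  by_cases h : m.Coprime q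
  · have h1 : m.Coprime χ.conductor := Nat.Coprime.coprime_dvd_right hf h
    have h2 : m.Coprime (q / χ.conductor) := Nat.Coprime.coprime_dvd_right (Dvd.intro_left _ hqf) h
    rw [if_pos h2]
    have h3 := DirichletCharacter.changeLevel_eq_cast_of_dvd χ.primitiveCharacter hf (ZMod.unitOfCoprime m h)
    rw [ZMod.coe_unitOfCoprime, χ.changeLevel_primitiveCharacter, ZMod.cast_natCast hf] at h3
    rw [h3]
  · have h0 : χ (m : ZMod q) = 0 := MulChar.map_nonunit _ fun hu => h ((ZMod.isUnit_iff_coprime m q).1 hu)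
    rw [h0, mul_zero]
    by_cases h1 : m.Coprime χ.conductor
    · have h2 : ¬ m.Coprime (q / χ.conductor) := by
        intro h2
        apply h
        rw [← hqf]
        exact Nat.Coprime.mul_right h1 h2
      rw [if_neg h2, zero_mul]
    · have h3 : χ.primitiveCharacter (m : ZMod χ.conductor) = 0 :=
        MulChar.map_nonunit _ fun hu => h1 ((ZMod.isUnit_iff_coprime m _).1 hu)
      rw [h3, mul_zero]

open Classical in
/-- regrouping of all characters by primitive characters (helper62) -/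
theorem regroup {r : ℕ} [NeZero r] (F : (q : ℕ) → DirichletCharacter ℂ q → ℝ) (hF : ∀ q χ, 0 ≤ F q χ) :
    ∑ χ : DirichletCharacter ℂ r, F χ.conductor χ.primitiveCharacter ≤
      ∑ q ∈ r.divisors, ∑ χ ∈ (Finset.univ : Finset (DirichletCharacter ℂ q)).filter (fun χ => χ.IsPrimitive), F q χ := by
  have hr0 : r ≠ 0 := NeZero.ne r
  rw [Finset.sum_sigma']
  set g : DirichletCharacter ℂ r → (Σ q : ℕ, DirichletCharacter ℂ q) := fun χ => ⟨χ.conductor, χ.primitiveCharacter⟩ with hg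
  have hinj : Set.InjOn g ((Finset.univ : Finset (DirichletCharacter ℂ r)) : Set (DirichletCharacter ℂ r)) := by
    intro χ _ ψ _ h
    have h1 : ∀ (p : Σ q : ℕ, DirichletCharacter ℂ q) (hd : p.1 ∣ r) (χ : DirichletCharacter ℂ r),
        g χ = p → DirichletCharacter.changeLevel hd p.2 = χ := by
      rintro p hd χ rfl
      exact χ.changeLevel_primitiveCharacter
    have h2 := h1 (g ψ) ψ.conductor_dvd_level χ h
    have h3 := h1 (g ψ) ψ.conductor_dvd_level ψ rfl
    exact h2.symm.trans h3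
  have h4 : ∑ χ : DirichletCharacter ℂ r, F χ.conductor χ.primitiveCharacter =
      ∑ p ∈ ((Finset.univ : Finset (DirichletCharacter ℂ r))).image g, F p.1 p.2 := by
    rw [Finset.sum_image hinj]
  rw [h4]
  refine Finset.sum_le_sum_of_subset_of_nonneg ?_ fun p _ _ => hF _ _
  intro p hp
  obtain ⟨χ, hχ, rfl⟩ := Finset.mem_image.1 hp
  simp only [hg, Finset.mem_sigma, Finset.mem_filter, Nat.mem_divisors, Finset.mem_univ, true_and]
  exact ⟨⟨χ.conductor_dvd_level, hr0⟩, χ.primitiveCharacter_isPrimitive⟩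

/-- one modulus -/
theorem one_mod {d P Z : ℕ} (hd : d ≠ 0) (hP : P ≠ 0) (hcop : d.Coprime P) (hZ : ∀ p : ℕ, p.Prime → p ∣ P → Z ≤ p) {k : ℤ}
    (hk : IsCoprime k ((d * P : ℕ) : ℤ)) (s t : Finset ℕ) (a b : ℕ → ℂ) :
    ‖∑ m ∈ s, ∑ l ∈ t, a m * b l * (if (k : ZMod (d * P)) = (m : ZMod (d * P)) * l then 1 else 0) -
      (P.totient : ℂ)⁻¹ * ∑ m ∈ s, ∑ l ∈ t, cp P a m * cp P b l * (if (k : ZMod d) = (m : ZMod d) * l then 1 else 0)‖ ≤
      1 / ((d * P).totient : ℝ) * ∑ f ∈ (d * P).divisors.filter (fun f => Z ≤ f),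
        G (cp (d * P / f) a) (cp (d * P / f) b) s t f := by
  classical
  have : NeZero (d * P) := ⟨mul_ne_zero hd hP⟩
  have h0 := split hd hP hk s t a b
  set S1 := ∑ m ∈ s, ∑ l ∈ t, a m * b l * (if (k : ZMod (d * P)) = (m : ZMod (d * P)) * l then 1 else 0) with hS1
  set S2 := ∑ m ∈ s, ∑ l ∈ t, cp P a m * cp P b l * (if (k : ZMod d) = (m : ZMod d) * l then 1 else 0) with hS2
  have ht : (0 : ℝ) < (d * P).totient := by exact_mod_cast Nat.totient_pos.2 (Nat.pos_of_ne_zero (mul_ne_zero hd hP))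
  have htP : ((P.totient : ℕ) : ℂ) ≠ 0 := by
    exact_mod_cast (Nat.totient_pos.2 (Nat.pos_of_ne_zero hP)).ne'
  have h1 : ((d * P).totient : ℂ) * (S1 - (P.totient : ℂ)⁻¹ * S2) =
      ∑ χ ∈ NE d P, (χ (k : ZMod (d * P)))⁻¹ * ((∑ m ∈ s, a m * χ m) * (∑ l ∈ t, b l * χ l)) := by
    rw [← h0, Nat.totient_mul hcop]
    push_cast
    field_simp
  have h2 : ((d * P).totient : ℝ) * ‖S1 - (P.totient : ℂ)⁻¹ * S2‖ ≤
      ∑ f ∈ (d * P).divisors.filter (fun f => Z ≤ f), G (cp (d * P / f) a) (cp (d * P / f) b) s t f := by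
    have h3 : ((d * P).totient : ℝ) * ‖S1 - (P.totient : ℂ)⁻¹ * S2‖ =
        ‖((d * P).totient : ℂ) * (S1 - (P.totient : ℂ)⁻¹ * S2)‖ := by
      rw [norm_mul, Complex.norm_natCast]
    rw [h3, h1]
    set Fn : (f : ℕ) → DirichletCharacter ℂ f → ℝ := fun f ψ => if Z ≤ f then
      ‖∑ n ∈ s, cp (d * P / f) a n * ψ n‖ * ‖∑ n ∈ t, cp (d * P / f) b n * ψ n‖ else 0 with hFn
    have h4 : ‖∑ χ ∈ NE d P, (χ (k : ZMod (d * P)))⁻¹ * ((∑ m ∈ s, a m * χ m) * (∑ l ∈ t, b l * χ l))‖ ≤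
        ∑ χ : DirichletCharacter ℂ (d * P), Fn χ.conductor χ.primitiveCharacter := by
      refine (norm_sum_le _ _).trans ((sum_le_sum fun χ hχ => ?_).trans
        (sum_le_sum_of_subset_of_nonneg (subset_univ (NE d P)) fun χ _ _ => ?_))
      · have h5 : ‖(χ (k : ZMod (d * P)))⁻¹‖ ≤ 1 := by
          rw [norm_inv]
          have hu : IsUnit (k : ZMod (d * P)) := (ZMod.coe_int_isUnit_iff_isCoprime k _).2 hk.symm
          have := DirichletCharacter.unit_norm_eq_one χ hu.unit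
          rw [IsUnit.unit_spec] at this
          rw [this, inv_one]
        rw [norm_mul, norm_mul]
        simp only [hFn]
        rw [if_pos (cond_large hd hP hZ hχ), ← prim_sum, ← prim_sum]
        exact mul_le_of_le_one_left (by positivity) h5
      · simp only [hFn]
        split_ifs <;> positivity
    refine h4.trans ((regroup Fn fun f ψ => ?_).trans (le_of_eq ?_))
    · simp only [hFn]
      split_ifs <;> positivity
    · rw [sum_filter]
      refine sum_congr rfl fun f _ => ?_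
      unfold G
      simp only [hFn]
      split_ifs with h
      · rfl
      · simp
  rw [one_div_mul_eq_div]
  refine (le_div_iff₀ ht).2 ?_
  rw [mul_comm]
  exact h2

end Pool.Agent.Helper3.AP
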